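import Mathlib

set_option autoImplicit false

namespace Pool.Agent.H.MP_21aec1_al

variable {G : Type} [Group G]

/-- The element of `G` represented by a word over `S`. -/
def ev (S : Finset G) (w : List S) : G := (w.map Subtype.val).prod

/-- The word length `d_S(g)`. -/
noncomputable def wordLength (S : Finset G) (g : G) : ℕ :=
  sInf {n | ∃ w : List S, ev S w = g ∧ w.length = n}

/-- The language of `(lam, eps)`-quasigeodesic words over `S`. -/
def quasigeodesics (S : Finset G) (lam eps : ℝ) : Language S :=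
  {w | ∀ u : List S, u <:+: w → (u.length : ℝ) ≤ lam * wordLength S (ev S u) + eps}

/-- `S` is a finite symmetric generating set of the subgroup `K`. -/
def SymmGenerates (S : Finset G) (K : Subgroup G) : Prop :=
  (∀ s ∈ S, s⁻¹ ∈ S) ∧ Subgroup.closure (S : Set G) = K

/-- `G` is `QCF`: for all rational `lam ≥ 1`, real `eps ≥ 0` and finite symmetric generating sets
`S`, the `(lam, eps)`-quasigeodesic words over `S` form a context-free language. -/
def IsQCF (G : Type) [Group G] : Prop :=
  ∀ (lam : ℚ) (eps : ℝ) (S : Finset G), 1 ≤ lam → 0 ≤ eps → SymmGenerates S ⊤ →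
    (quasigeodesics S (lam : ℝ) eps).IsContextFree

/-- The element `v` has infinite order and `⟨v⟩` is undistorted in `G`. -/
def UndistortedElement (v : G) : Prop :=
  ∃ (S : Finset G) (C : ℕ), SymmGenerates S ⊤ ∧ ∀ n : ℕ, n ≤ C * wordLength S (v ^ n) + C

/-- `K` is finitely generated and undistorted in `G`. -/
def UndistortedSubgroup (K : Subgroup G) : Prop :=
  ∃ (S S' : Finset G) (C : ℕ), SymmGenerates S ⊤ ∧ SymmGenerates S' K ∧
    ∀ k ∈ K, wordLength S' k ≤ C * wordLength S k + C

section basic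

theorem ev_nil (S : Finset G) : ev S [] = 1 := rfl

theorem ev_cons (S : Finset G) (a : S) (w : List S) : ev S (a :: w) = a * ev S w := by
  simp [ev]

theorem ev_append (S : Finset G) (u w : List S) : ev S (u ++ w) = ev S u * ev S w := by
  simp [ev]

theorem ev_replicate (S : Finset G) (n : ℕ) (a : S) : ev S (List.replicate n a) = (a : G) ^ n := by
  simp [ev]

theorem ev_mem (S : Finset G) (w : List S) : ev S w ∈ Subgroup.closure (S : Set G) := by
  induction w with
  | nil => exact one_mem _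
  | cons a w ih => rw [ev_cons]; exact mul_mem (Subgroup.subset_closure a.2) ih

theorem wordLength_ev_le (S : Finset G) (w : List S) : wordLength S (ev S w) ≤ w.length :=
  Nat.sInf_le ⟨w, rfl, rfl⟩

theorem exists_inv_word {S : Finset G} (hS : ∀ s ∈ S, s⁻¹ ∈ S) (w : List S) :
    ∃ w' : List S, ev S w' = (ev S w)⁻¹ ∧ w'.length = w.length := by
  induction w with
  | nil => exact ⟨[], by simp [ev], rfl⟩
  | cons a w ih =>
    obtain ⟨w', h1, h2⟩ := ih
    refine ⟨w' ++ [⟨(a : G)⁻¹, hS a a.2⟩], ?_, by simp [h2]⟩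
    rw [ev_append, h1, ev_cons S a w, mul_inv_rev]
    simp [ev]

theorem exists_word {S : Finset G} (hS : ∀ s ∈ S, s⁻¹ ∈ S) {g : G}
    (hg : g ∈ Subgroup.closure (S : Set G)) : ∃ w : List S, ev S w = g := by
  induction hg using Subgroup.closure_induction with
  | mem x hx => exact ⟨[⟨x, hx⟩], by simp [ev]⟩
  | one => exact ⟨[], rfl⟩
  | mul x y _ _ ihx ihy =>
    obtain ⟨u, hu⟩ := ihx
    obtain ⟨w, hw⟩ := ihy
    exact ⟨u ++ w, by rw [ev_append, hu, hw]⟩
  | inv x _ ih =>
    obtain ⟨u, hu⟩ := ih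
    obtain ⟨w, hw, _⟩ := exists_inv_word hS u
    exact ⟨w, by rw [hw, hu]⟩

theorem exists_geodesic {S : Finset G} (hS : ∀ s ∈ S, s⁻¹ ∈ S) {g : G}
    (hg : g ∈ Subgroup.closure (S : Set G)) :
    ∃ w : List S, ev S w = g ∧ w.length = wordLength S g := by
  obtain ⟨w, hw⟩ := exists_word hS hg
  exact Nat.sInf_mem (s := {n | ∃ w : List S, ev S w = g ∧ w.length = n}) ⟨w.length, w, hw, rfl⟩

theorem wordLength_one (S : Finset G) : wordLength S 1 = 0 :=
  Nat.le_zero.1 (wordLength_ev_le S [])

theorem wordLength_mul {S : Finset G} (hS : ∀ s ∈ S, s⁻¹ ∈ S) {g h : G}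
    (hg : g ∈ Subgroup.closure (S : Set G)) (hh : h ∈ Subgroup.closure (S : Set G)) :
    wordLength S (g * h) ≤ wordLength S g + wordLength S h := by
  obtain ⟨u, hu, hu'⟩ := exists_geodesic hS hg
  obtain ⟨w, hw, hw'⟩ := exists_geodesic hS hh
  rw [← hu', ← hw', ← List.length_append]
  refine Nat.sInf_le ⟨u ++ w, ?_, rfl⟩
  rw [ev_append, hu, hw]

theorem wordLength_inv_le {S : Finset G} (hS : ∀ s ∈ S, s⁻¹ ∈ S) {g : G}
    (hg : g ∈ Subgroup.closure (S : Set G)) : wordLength S g⁻¹ ≤ wordLength S g := by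
  obtain ⟨u, hu, hu'⟩ := exists_geodesic hS hg
  obtain ⟨w, hw, hw'⟩ := exists_inv_word hS u
  rw [← hu', ← hw']
  exact Nat.sInf_le ⟨w, by rw [hw, hu], rfl⟩

theorem wordLength_inv {S : Finset G} (hS : ∀ s ∈ S, s⁻¹ ∈ S) {g : G}
    (hg : g ∈ Subgroup.closure (S : Set G)) : wordLength S g⁻¹ = wordLength S g := by
  apply le_antisymm (wordLength_inv_le hS hg)
  have := wordLength_inv_le hS (inv_mem hg)
  rwa [inv_inv] at this

theorem eq_one_of_wordLength {S : Finset G} (hS : ∀ s ∈ S, s⁻¹ ∈ S) {g : G}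
    (hg : g ∈ Subgroup.closure (S : Set G)) (h : wordLength S g = 0) : g = 1 := by
  obtain ⟨u, hu, hu'⟩ := exists_geodesic hS hg
  rw [h, List.length_eq_zero_iff] at hu'
  rw [← hu, hu']; rfl

/-- Comparison of word lengths. -/
theorem wordLength_compare {S S' : Finset G} (hS : ∀ s ∈ S, s⁻¹ ∈ S)
    (hS' : ∀ s ∈ S', s⁻¹ ∈ S') (h : Subgroup.closure (S : Set G) ≤
      Subgroup.closure (S' : Set G)) :
    ∃ A : ℕ, ∀ g ∈ Subgroup.closure (S : Set G), wordLength S' g ≤ A * wordLength S g := by
  refine ⟨S.sup fun s => wordLength S' s, ?_⟩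
  have key : ∀ w : List S, wordLength S' (ev S w) ≤
      (S.sup fun s => wordLength S' s) * w.length := by
    intro w
    induction w with
    | nil => simp [ev, wordLength_one]
    | cons a w ih =>
      rw [ev_cons, List.length_cons, mul_add, mul_one, add_comm]
      refine (wordLength_mul hS' (h (Subgroup.subset_closure a.2)) (h (ev_mem S w))).trans ?_
      exact Nat.add_le_add (Finset.le_sup (f := fun s => wordLength S' s) a.2) ih
  intro g hg
  obtain ⟨w, hw, hw'⟩ := exists_geodesic hS hg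
  rw [← hw', ← hw]
  exact key w

/-- Balls are finite. -/
theorem ball_finite {S : Finset G} (hS : SymmGenerates S ⊤) (n : ℕ) :
    {g : G | wordLength S g ≤ n}.Finite := by
  have h1 : {w : List S | w.length ≤ n}.Finite := List.finite_length_le S n
  refine (h1.image (ev S)).subset ?_
  intro g hg
  obtain ⟨w, hw, hw'⟩ := exists_geodesic hS.1 (g := g) (by rw [hS.2]; trivial)
  exact ⟨w, by simpa [hw'] using hg, hw⟩

end basic

end Pool.Agent.H.MP_21aec1_al
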