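import Mathlib

set_option autoImplicit false

namespace Pool.Agent.H.MP_21aec1_al

variable {G : Type} [Group G]

/-- A length function together with a linear lower bound for the powers of `v`. -/
structure LenData (len : G → ℕ) (v : G) (D : ℕ) : Prop where
  mul : ∀ a b, len (a * b) ≤ len a + len b
  inv : ∀ a, len a⁻¹ = len a
  pos : 1 ≤ D
  low : ∀ k : ℤ, k.natAbs ≤ D * len (v ^ k)

namespace LenData

variable {len : G → ℕ} {v : G} {D : ℕ} (h : LenData len v D)

include h

theorem cancel_left (a b : G) : len b ≤ len a + len (a * b) := by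
  have := h.mul a⁻¹ (a * b)
  rwa [inv_mul_cancel_left, h.inv] at this

theorem cancel_right (a b : G) : len a ≤ len (a * b) + len b := by
  have := h.mul (a * b) b⁻¹
  rwa [mul_inv_cancel_right, h.inv] at this

/-- prefixes of shortest crossings -/
theorem pre_le {x x' x'' : G} (hx : x' * x'' = x) (hl : len x = len x' + len x'')
    (hc : Commute v x) (hs : ∀ k : ℤ, len x ≤ len (x * v ^ k)) (k : ℤ) :
    len x' ≤ len (v ^ k * x') := by
  have h1 := h.mul (v ^ k * x') x''
  have h2 : v ^ k * x' * x'' = x * v ^ k := by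
    rw [mul_assoc, hx]; exact (hc.zpow_left k).eq
  rw [h2] at h1
  have h3 := hs k
  omega

theorem suf_le {x x' x'' : G} (hx : x' * x'' = x) (hl : len x = len x' + len x'')
    (hs : ∀ k : ℤ, len x ≤ len (x * v ^ k)) (k : ℤ) :
    len x'' ≤ len (x'' * v ^ k) := by
  have h1 := h.mul x' (x'' * v ^ k)
  have h2 : x' * (x'' * v ^ k) = x * v ^ k := by rw [← mul_assoc, hx]
  rw [h2] at h1
  have h3 := hs k
  omega

theorem case_pow (k : ℤ) : k.natAbs ≤ (21 * D + 4) * len (v ^ k) := by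
  have := h.low k
  nlinarith [Nat.zero_le (len (v ^ k)), Nat.zero_le (D * len (v ^ k))]

theorem case_pre {x x' x'' : G} (hx : x' * x'' = x) (hl : len x = len x' + len x'')
    (hc : Commute v x) (hs : ∀ k : ℤ, len x ≤ len (x * v ^ k)) (k : ℤ) :
    k.natAbs + len x' ≤ (21 * D + 4) * len (v ^ k * x') := by
  have h1 := h.pre_le hx hl hc hs k
  have h2 := h.cancel_right (v ^ k) x'
  have h3 := h.low k
  set d := len (v ^ k * x')
  have h4 : D * len (v ^ k) ≤ D * (2 * d) := Nat.mul_le_mul_left D (by omega)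
  nlinarith [Nat.zero_le (D * d)]

theorem case_suf {x x' x'' : G} (hx : x' * x'' = x) (hl : len x = len x' + len x'')
    (hs : ∀ k : ℤ, len x ≤ len (x * v ^ k)) (k : ℤ) :
    len x'' + k.natAbs ≤ (21 * D + 4) * len (x'' * v ^ k) := by
  have h1 := h.suf_le hx hl hs k
  have h2 := h.cancel_left x'' (v ^ k)
  have h3 := h.low k
  set d := len (x'' * v ^ k)
  have h4 : D * len (v ^ k) ≤ D * (2 * d) := Nat.mul_le_mul_left D (by omega)
  nlinarith [Nat.zero_le (D * d)]

theorem case_mid {x : G} (hc : Commute v x) (hs : ∀ k : ℤ, len x ≤ len (x * v ^ k)) (R : ℕ)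
    (hR : R ≤ len x) (s t : ℤ) (hst : s.natAbs ≤ 4 * D * R ∨ t.natAbs ≤ 4 * D * R) :
    s.natAbs + len x + t.natAbs ≤ (21 * D + 4) * len (v ^ s * x * v ^ t) := by
  have e : v ^ s * x * v ^ t = x * v ^ (s + t) := by
    rw [(hc.zpow_left s).eq, mul_assoc, ← zpow_add]
  rw [e]
  have h1 := hs (s + t)
  have h2 := h.cancel_left x (v ^ (s + t))
  have h3 := h.low (s + t)
  set d := len (x * v ^ (s + t))
  have h4 : D * len (v ^ (s + t)) ≤ D * (2 * d) := Nat.mul_le_mul_left D (by omega)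
  have h5 : 4 * D * R ≤ 4 * D * d := Nat.mul_le_mul_left _ (hR.trans h1)
  have h6 : s.natAbs + t.natAbs ≤ (s + t).natAbs + 2 * (4 * D * R) := by
    rcases hst with hst | hst <;> omega
  nlinarith [Nat.zero_le (D * d)]

theorem case_h1 {x x' x'' y y' y'' : G} (_hx : x' * x'' = x) (hxl : len x = len x' + len x'')
    (hy : y' * y'' = y) (hyl : len y = len y' + len y'')
    (hcy : Commute v y) (hsy : ∀ k : ℤ, len y ≤ len (y * v ^ k)) :
    len x'' + 4 * D * len x + len y' ≤
      (21 * D + 4) * len (x'' * v ^ ((4 * D * len x : ℕ) : ℤ) * y') := by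
  have h1 := h.pre_le hy hyl hcy hsy ((4 * D * len x : ℕ) : ℤ)
  have h2 := h.cancel_left x'' (v ^ ((4 * D * len x : ℕ) : ℤ) * y')
  rw [← mul_assoc] at h2
  have h3 := h.cancel_right (v ^ ((4 * D * len x : ℕ) : ℤ)) y'
  have h4 := h.low ((4 * D * len x : ℕ) : ℤ)
  rw [Int.natAbs_natCast] at h4
  set d := len (x'' * v ^ ((4 * D * len x : ℕ) : ℤ) * y')
  have h5 : D * len (v ^ ((4 * D * len x : ℕ) : ℤ)) ≤ D * (2 * len x + 2 * d) :=
    Nat.mul_le_mul_left D (by omega)
  have h6 : D * (4 * len x) ≤ D * (2 * len x + 2 * d) := by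
    have : D * (4 * len x) = 4 * D * len x := by ring
    omega
  have h7 : 4 * len x ≤ 2 * len x + 2 * d := Nat.le_of_mul_le_mul_left h6 h.pos
  have h8 : len x ≤ d := by omega
  have h9 : 4 * D * len x ≤ 4 * D * d := Nat.mul_le_mul_left _ h8
  nlinarith [Nat.zero_le (D * d)]

theorem case_h2 {x y y' y'' : G} (hcx : Commute v x) (hcy : Commute v y)
    (hsx : ∀ k : ℤ, len x ≤ len (x * v ^ k))
    (hy : y' * y'' = y) (hyl : len y = len y' + len y'')
    (hxy : ∀ k : ℤ, len y ≤ len (x * y * v ^ k)) (s : ℤ) :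
    s.natAbs + len x + 4 * D * len x + len y' ≤
      (21 * D + 4) * len (v ^ s * x * v ^ ((4 * D * len x : ℕ) : ℤ) * y') := by
  set j : ℤ := ((4 * D * len x : ℕ) : ℤ) with hj
  have hjn : j.natAbs = 4 * D * len x := by rw [hj, Int.natAbs_natCast]
  have e1 : v ^ s * x * v ^ j = x * v ^ (s + j) := by
    rw [(hcx.zpow_left s).eq, mul_assoc, ← zpow_add]
  have e2 : v ^ s * x * v ^ j * y' * y'' = x * y * v ^ (s + j) := by
    rw [mul_assoc _ y' y'', hy, e1, mul_assoc, (hcy.zpow_left (s + j)).eq, ← mul_assoc]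
  have h1 := h.mul (v ^ s * x * v ^ j * y') y''
  rw [e2] at h1
  have h2 := hxy (s + j)
  have h3 := h.cancel_right (v ^ s * x * v ^ j) y'
  rw [e1] at h3
  have h4 := hsx (s + j)
  have h5 := h.cancel_left x (v ^ (s + j))
  have h6 := h.low (s + j)
  rw [e1] at h1 ⊢
  set d := len (x * v ^ (s + j) * y')
  have h7 : D * len (v ^ (s + j)) ≤ D * (4 * d) := Nat.mul_le_mul_left D (by omega)
  have h8 : 4 * D * len x ≤ 4 * D * (2 * d) := Nat.mul_le_mul_left _ (by omega)
  have h9 : s.natAbs ≤ (s + j).natAbs + 4 * D * len x := by omega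
  nlinarith [Nat.zero_le (D * d)]

theorem case_h3 {x x' x'' y : G} (hcy : Commute v y)
    (hx : x' * x'' = x) (hxl : len x = len x' + len x'')
    (hsy : ∀ k : ℤ, len y ≤ len (y * v ^ k)) (hle : len x ≤ len y)
    (hxy : ∀ k : ℤ, len y ≤ len (x * y * v ^ k)) (t : ℤ) :
    len x'' + 4 * D * len x + len y + t.natAbs ≤
      (21 * D + 4) * len (x'' * v ^ ((4 * D * len x : ℕ) : ℤ) * y * v ^ t) := by
  set j : ℤ := ((4 * D * len x : ℕ) : ℤ) with hj
  have hjn : j.natAbs = 4 * D * len x := by rw [hj, Int.natAbs_natCast]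
  have e1 : x'' * v ^ j * y * v ^ t = x'' * (y * v ^ (j + t)) := by
    rw [mul_assoc x'' (v ^ j) y, (hcy.zpow_left j).eq, mul_assoc, mul_assoc, ← zpow_add]
  rw [e1]
  have h1 := h.mul x' (x'' * (y * v ^ (j + t)))
  have e2 : x' * (x'' * (y * v ^ (j + t))) = x * y * v ^ (j + t) := by
    rw [← mul_assoc, hx, mul_assoc]
  rw [e2] at h1
  have h2 := hxy (j + t)
  have h3 := h.cancel_left x'' (y * v ^ (j + t))
  have h4 := hsy (j + t)
  have h5 := h.cancel_left y (v ^ (j + t))
  have h6 := h.low (j + t)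
  set d := len (x'' * (y * v ^ (j + t)))
  have h7 : D * len (v ^ (j + t)) ≤ D * (5 * d) := Nat.mul_le_mul_left D (by omega)
  have h8 : 4 * D * len x ≤ 4 * D * (2 * d) := Nat.mul_le_mul_left _ (by omega)
  have h9 : t.natAbs ≤ (j + t).natAbs + 4 * D * len x := by omega
  nlinarith [Nat.zero_le (D * d)]

theorem case_h4 {x y : G} (hcx : Commute v x) (hcy : Commute v y) (hle : len x ≤ len y)
    (hxy : ∀ k : ℤ, len y ≤ len (x * y * v ^ k)) (s t : ℤ) (hs : s ≤ 0) (ht : t ≤ 0) :
    s.natAbs + len x + 4 * D * len x + len y + t.natAbs ≤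
      (21 * D + 4) * len (v ^ s * x * v ^ ((4 * D * len x : ℕ) : ℤ) * y * v ^ t) := by
  set j : ℤ := ((4 * D * len x : ℕ) : ℤ) with hj
  have hjn : j.natAbs = 4 * D * len x := by rw [hj, Int.natAbs_natCast]
  have e1 : v ^ s * x * v ^ j * y * v ^ t = x * y * v ^ (s + j + t) := by
    rw [(hcx.zpow_left s).eq, mul_assoc x, ← zpow_add, mul_assoc x, (hcy.zpow_left (s + j)).eq,
      mul_assoc, mul_assoc, ← zpow_add, ← mul_assoc]
  rw [e1]
  have h2 := hxy (s + j + t)
  have h5 := h.cancel_left (x * y) (v ^ (s + j + t))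
  have h5' := h.mul x y
  have h6 := h.low (s + j + t)
  set d := len (x * y * v ^ (s + j + t))
  have h7 : D * len (v ^ (s + j + t)) ≤ D * (3 * d) := Nat.mul_le_mul_left D (by omega)
  have h8 : 4 * D * len x ≤ 4 * D * d := Nat.mul_le_mul_left _ (by omega)
  have h9 : s.natAbs + t.natAbs ≤ (s + j + t).natAbs + 4 * D * len x := by omega
  nlinarith [Nat.zero_le (D * d)]

end LenData

end Pool.Agent.H.MP_21aec1_al
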