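import Pool.Agent.H.MP_21aec1_al.Defs
import Pool.Agent.H.MP_21aec1_al.Ineq

set_option autoImplicit false

namespace Pool.Agent.H.MP_21aec1_al

section lists

variable {α : Type}

theorem infix_append_cases {u a b : List α} (h : u <:+: a ++ b) :
    u <:+: a ∨ u <:+: b ∨ ∃ u1 u2, u = u1 ++ u2 ∧ u1 <:+ a ∧ u2 <+: b := by
  obtain ⟨s, t, h⟩ := h
  rcases List.append_eq_append_iff.1 h with ⟨c, h1, h2⟩ | ⟨c, h1, h2⟩
  · exact Or.inl ⟨s, c, h1.symm⟩
  · rcases List.append_eq_append_iff.1 h1 with ⟨d, h3, h4⟩ | ⟨d, h3, h4⟩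
    · exact Or.inr (Or.inr ⟨d, c, h4, ⟨s, h3.symm⟩, ⟨t, h2.symm⟩⟩)
    · exact Or.inr (Or.inl ⟨d, t, by rw [h2, h4]⟩)

theorem suffix_append_cases {u a b : List α} (h : u <:+ a ++ b) :
    u <:+ b ∨ ∃ u1, u1 <:+ a ∧ u = u1 ++ b := by
  obtain ⟨s, h⟩ := h
  rcases List.append_eq_append_iff.1 h with ⟨c, h1, h2⟩ | ⟨c, h1, h2⟩
  · exact Or.inr ⟨c, ⟨s, h1.symm⟩, h2⟩
  · exact Or.inl ⟨c, h2.symm⟩

theorem prefix_rep {u : List α} {n : ℕ} {a : α} (h : u <+: List.replicate n a) :
    ∃ k ≤ n, u = List.replicate k a := by
  rw [List.prefix_replicate_iff] at h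
  exact ⟨u.length, h.1, h.2⟩

theorem suffix_rep {u : List α} {n : ℕ} {a : α} (h : u <:+ List.replicate n a) :
    ∃ k ≤ n, u = List.replicate k a := by
  rw [List.suffix_replicate_iff] at h
  exact ⟨u.length, h.1, h.2⟩

theorem infix_rep {u : List α} {n : ℕ} {a : α} (h : u <:+: List.replicate n a) :
    ∃ k ≤ n, u = List.replicate k a := by
  rw [List.infix_replicate_iff] at h
  exact ⟨u.length, h.1, h.2⟩

end lists

variable {G : Type} [Group G]

/-- A geodesic word. -/
def Geod (S : Finset G) (w : List S) : Prop := w.length = wordLength S (ev S w)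

theorem wl_mul {S : Finset G} (hS : SymmGenerates S ⊤) (g h : G) :
    wordLength S (g * h) ≤ wordLength S g + wordLength S h :=
  wordLength_mul hS.1 (by rw [hS.2]; trivial) (by rw [hS.2]; trivial)

theorem wl_inv {S : Finset G} (hS : SymmGenerates S ⊤) (g : G) :
    wordLength S g⁻¹ = wordLength S g :=
  wordLength_inv hS.1 (by rw [hS.2]; trivial)

theorem Geod.parts {S : Finset G} (hS : SymmGenerates S ⊤) {a b : List S}
    (h : Geod S (a ++ b)) : Geod S a ∧ Geod S b ∧
      wordLength S (ev S (a ++ b)) = wordLength S (ev S a) + wordLength S (ev S b) := by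
  have h1 := wordLength_ev_le S a
  have h2 := wordLength_ev_le S b
  have h3 := wl_mul hS (ev S a) (ev S b)
  rw [← ev_append] at h3
  have h4 : (a ++ b).length = wordLength S (ev S (a ++ b)) := h
  rw [List.length_append] at h4
  unfold Geod
  refine ⟨by omega, by omega, by omega⟩

theorem Geod.factor {S : Finset G} (hS : SymmGenerates S ⊤) {u w : List S}
    (h : Geod S w) (hu : u <:+: w) : Geod S u := by
  obtain ⟨s, t, rfl⟩ := hu
  exact ((h.parts hS).1.parts hS).2.1

theorem ev_rep_inv (S : Finset G) (a a' : S) (ha : (a' : G) = (a : G)⁻¹) (i : ℕ) :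
    ev S (List.replicate i a') = (a : G) ^ (-(i : ℤ)) := by
  rw [ev_replicate, ha, zpow_neg, zpow_natCast, inv_pow]

theorem ev_rep (S : Finset G) (a : S) (i : ℕ) :
    ev S (List.replicate i a) = (a : G) ^ (i : ℤ) := by
  rw [ev_replicate, zpow_natCast]

/-- The long path along three parallel lines is quasigeodesic with a constant that depends only
on the distortion of `v`. -/
theorem path_qg {S : Finset G} (hS : SymmGenerates S ⊤) {a a' : S} (ha : (a' : G) = (a : G)⁻¹)
    {D : ℕ} (hD : LenData (wordLength S) (a : G) D) {X Y : List S} (hX : Geod S X)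
    (hY : Geod S Y) (hcx : Commute (a : G) (ev S X)) (hcy : Commute (a : G) (ev S Y))
    (hsx : ∀ k : ℤ, wordLength S (ev S X) ≤ wordLength S (ev S X * (a : G) ^ k))
    (hsy : ∀ k : ℤ, wordLength S (ev S Y) ≤ wordLength S (ev S Y * (a : G) ^ k))
    (hxy : ∀ k : ℤ, wordLength S (ev S Y) ≤ wordLength S (ev S X * ev S Y * (a : G) ^ k))
    (hle : wordLength S (ev S X) ≤ wordLength S (ev S Y)) (M M' : ℕ) (u : List S)
    (hu : u <:+: List.replicate M a' ++ X ++ List.replicate (4 * D * X.length) a ++ Y ++
      List.replicate M' a') :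
    u.length ≤ (21 * D + 4) * wordLength S (ev S u) := by
  have hXl : X.length = wordLength S (ev S X) := hX
  have hYl : Y.length = wordLength S (ev S Y) := hY
  have hinf : ∀ {w u : List S}, Geod S w → u <:+: w →
      u.length ≤ (21 * D + 4) * wordLength S (ev S u) := by
    intro w u hw hu
    have h1 : u.length = wordLength S (ev S u) := hw.factor hS hu
    rw [← h1]
    exact Nat.le_mul_of_pos_left _ (by omega)
  -- suffixes of X
  have sufX : ∀ {s : List S}, s <:+ X → ∃ x', x' * ev S s = ev S X ∧
      wordLength S (ev S X) = wordLength S x' + wordLength S (ev S s) ∧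
      s.length = wordLength S (ev S s) := by
    rintro s ⟨t, ht⟩
    refine ⟨ev S t, by rw [← ev_append, ht], ?_, ?_⟩
    · rw [← ht] at hX ⊢; exact (hX.parts hS).2.2
    · rw [← ht] at hX; exact (hX.parts hS).2.1
  have sufY : ∀ {s : List S}, s <:+ Y → ∃ x', x' * ev S s = ev S Y ∧
      wordLength S (ev S Y) = wordLength S x' + wordLength S (ev S s) ∧
      s.length = wordLength S (ev S s) := by
    rintro s ⟨t, ht⟩
    refine ⟨ev S t, by rw [← ev_append, ht], ?_, ?_⟩
    · rw [← ht] at hY ⊢; exact (hY.parts hS).2.2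
    · rw [← ht] at hY; exact (hY.parts hS).2.1
  have preX : ∀ {s : List S}, s <+: X → ∃ x'', ev S s * x'' = ev S X ∧
      wordLength S (ev S X) = wordLength S (ev S s) + wordLength S x'' ∧
      s.length = wordLength S (ev S s) := by
    rintro s ⟨t, ht⟩
    refine ⟨ev S t, by rw [← ev_append, ht], ?_, ?_⟩
    · rw [← ht] at hX ⊢; exact (hX.parts hS).2.2
    · rw [← ht] at hX; exact (hX.parts hS).1
  have preY : ∀ {s : List S}, s <+: Y → ∃ x'', ev S s * x'' = ev S Y ∧
      wordLength S (ev S Y) = wordLength S (ev S s) + wordLength S x'' ∧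
      s.length = wordLength S (ev S s) := by
    rintro s ⟨t, ht⟩
    refine ⟨ev S t, by rw [← ev_append, ht], ?_, ?_⟩
    · rw [← ht] at hY ⊢; exact (hY.parts hS).2.2
    · rw [← ht] at hY; exact (hY.parts hS).1
  rcases infix_append_cases hu with hu | hu | ⟨u4, u5, rfl, hu4, hu5⟩
  · rcases infix_append_cases hu with hu | hu | ⟨u3, u4, rfl, hu3, hu4⟩
    · rcases infix_append_cases hu with hu | hu | ⟨u2, u3, rfl, hu2, hu3⟩
      · rcases infix_append_cases hu with hu | hu | ⟨u1, u2, rfl, hu1, hu2⟩
        · -- infix of A1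
          obtain ⟨i, -, rfl⟩ := infix_rep hu
          rw [ev_rep_inv S a a' ha, List.length_replicate]
          have := hD.case_pow (-(i : ℤ))
          simpa using this
        · exact hinf hX hu
        · -- A1 X'
          obtain ⟨i, -, rfl⟩ := suffix_rep hu1
          obtain ⟨x'', h1, h2, h3⟩ := preX hu2
          rw [ev_append, ev_rep_inv S a a' ha, List.length_append, List.length_replicate, h3]
          have := hD.case_pre h1 h2 hcx hsx (-(i : ℤ))
          simpa using this
      · -- infix of B
        obtain ⟨k, -, rfl⟩ := infix_rep hu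
        rw [ev_rep S a, List.length_replicate]
        have := hD.case_pow (k : ℤ)
        simpa using this
      · -- suffix of A1 X, prefix of B
        obtain ⟨k, hk, rfl⟩ := prefix_rep hu3
        rcases suffix_append_cases hu2 with hu2 | ⟨u1, hu1, rfl⟩
        · obtain ⟨x', h1, h2, h3⟩ := sufX hu2
          rw [ev_append, ev_rep S a, List.length_append, List.length_replicate, h3]
          have := hD.case_suf h1 h2 hsx (k : ℤ)
          simpa using this
        · obtain ⟨i, -, rfl⟩ := suffix_rep hu1
          rw [ev_append, ev_append, ev_rep S a, ev_rep_inv S a a' ha]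
          simp only [List.length_append, List.length_replicate]
          rw [hXl] at hk ⊢
          have := hD.case_mid hcx hsx _ le_rfl (-(i : ℤ)) (k : ℤ) (Or.inr (by simpa using hk))
          simpa using this
    · exact hinf hY hu
    · -- suffix of A1 X B, prefix of Y
      obtain ⟨y'', g1, g2, g3⟩ := preY hu4
      rcases suffix_append_cases hu3 with hu3 | ⟨u2, hu2, rfl⟩
      · obtain ⟨k, hk, rfl⟩ := suffix_rep hu3
        rw [ev_append, ev_rep S a, List.length_append, List.length_replicate, g3]
        have := hD.case_pre g1 g2 hcy hsy (k : ℤ)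
        simpa using this
      · rcases suffix_append_cases hu2 with hu2 | ⟨u1, hu1, rfl⟩
        · obtain ⟨x', h1, h2, h3⟩ := sufX hu2
          rw [ev_append, ev_append, ev_rep]
          simp only [List.length_append, List.length_replicate]
          rw [hXl, h3, g3]
          exact hD.case_h1 h1 h2 g1 g2 hcy hsy
        · obtain ⟨i, -, rfl⟩ := suffix_rep hu1
          rw [ev_append, ev_append, ev_append, ev_rep S a, ev_rep_inv S a a' ha]
          simp only [List.length_append, List.length_replicate]
          rw [hXl, g3]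
          have := hD.case_h2 hcx hcy hsx g1 g2 hxy (-(i : ℤ))
          simpa using this
  · -- infix of A2
    obtain ⟨i, -, rfl⟩ := infix_rep hu
    rw [ev_rep_inv S a a' ha, List.length_replicate]
    have := hD.case_pow (-(i : ℤ))
    simpa using this
  · obtain ⟨t, -, rfl⟩ := prefix_rep hu5
    rcases suffix_append_cases hu4 with hu4 | ⟨u3, hu3, rfl⟩
    · obtain ⟨y', g1, g2, g3⟩ := sufY hu4
      rw [ev_append, ev_rep_inv S a a' ha, List.length_append, List.length_replicate, g3]
      have := hD.case_suf g1 g2 hsy (-(t : ℤ))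
      simpa using this
    · rcases suffix_append_cases hu3 with hu3 | ⟨u2, hu2, rfl⟩
      · obtain ⟨k, hk, rfl⟩ := suffix_rep hu3
        rw [ev_append, ev_append, ev_rep S a, ev_rep_inv S a a' ha]
        simp only [List.length_append, List.length_replicate]
        rw [hXl] at hk
        rw [hYl]
        have := hD.case_mid hcy hsy _ hle (k : ℤ) (-(t : ℤ)) (Or.inl (by simpa using hk))
        simpa using this
      · rcases suffix_append_cases hu2 with hu2 | ⟨u1, hu1, rfl⟩
        · obtain ⟨x', h1, h2, h3⟩ := sufX hu2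
          rw [ev_append, ev_append, ev_append, ev_rep S a, ev_rep_inv S a a' ha]
          simp only [List.length_append, List.length_replicate]
          rw [hXl, hYl, h3]
          have := hD.case_h3 hcy h1 h2 hsy hle hxy (-(t : ℤ))
          simpa using this
        · obtain ⟨i, -, rfl⟩ := suffix_rep hu1
          rw [ev_append, ev_append, ev_append, ev_append, ev_rep S a, ev_rep_inv S a a' ha,
            ev_rep_inv S a a' ha]
          simp only [List.length_append, List.length_replicate]
          rw [hXl, hYl]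
          have := hD.case_h4 hcx hcy hle hxy (-(i : ℤ)) (-(t : ℤ)) (by omega) (by omega)
          simpa using this

end Pool.Agent.H.MP_21aec1_al
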