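import Pool.Agent.H.MP_21aec1_al.Zone
import Pool.Agent.H.MP_21aec1_al.Path

set_option autoImplicit false

namespace Pool.Agent.H.MP_21aec1_al

section rep

variable {T : Type}

theorem length_rep (u : List T) (n : ℕ) : (rep u n).length = n * u.length := by
  induction n with
  | zero => simp
  | succ n ih => rw [rep_succ, List.length_append, ih]; ring

theorem mem_rep {u : List T} {n : ℕ} {b : T} (h : b ∈ rep u n) : b ∈ u := by
  induction n with
  | zero => simp at h
  | succ n ih =>
    rw [rep_succ, List.mem_append] at h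
    exact h.elim id ih

theorem eq_rep_of_mem {l : List T} {a : T} (h : ∀ b ∈ l, b = a) {m : ℕ} (hm : m ≤ l.length) :
    ∃ N, l = List.replicate (m + N) a := by
  refine ⟨l.length - m, ?_⟩
  rw [show m + (l.length - m) = l.length by omega]
  exact List.eq_replicate_of_mem h

end rep

variable {G : Type} [Group G]

theorem qg_infix {S : Finset G} {lam eps : ℝ} {w u : List S} (h : w ∈ quasigeodesics S lam eps)
    (hu : u <:+: w) : u ∈ quasigeodesics S lam eps :=
  fun u' hu' => h u' (hu'.trans hu)

theorem undistorted_lenData {v : G} (hv : UndistortedElement v) :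
    ∃ (S : Finset G) (D : ℕ) (a a' : S), SymmGenerates S ⊤ ∧ (a : G) = v ∧ (a' : G) = v⁻¹ ∧
      LenData (wordLength S) v D := by
  classical
  obtain ⟨S0, C, ⟨hS0, hS0'⟩, hC⟩ := hv
  let S : Finset G := S0 ∪ {v, v⁻¹}
  have hS : SymmGenerates S ⊤ := by
    constructor
    · intro s hs
      simp only [S, Finset.mem_union, Finset.mem_insert, Finset.mem_singleton] at hs ⊢
      rcases hs with hs | rfl | rfl
      · exact Or.inl (hS0 s hs)
      · exact Or.inr (Or.inr rfl)
      · exact Or.inr (Or.inl (inv_inv v))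
    · rw [eq_top_iff, ← hS0']
      exact Subgroup.closure_mono (by
        intro s hs; exact Finset.mem_coe.2 (Finset.mem_union_left _ hs))
  have hv1 : v ∈ S := by simp [S]
  have hv2 : v⁻¹ ∈ S := by simp [S]
  obtain ⟨A, hA⟩ := wordLength_compare hS.1 hS0 (by rw [hS0']; exact le_top)
  have hne : ∀ n : ℕ, 1 ≤ n → v ^ n ≠ 1 := by
    intro n hn h1
    have h2 := hC (n * (C + 1))
    rw [pow_mul, h1, one_pow, wordLength_one, mul_zero, zero_add] at h2
    have : C + 1 ≤ n * (C + 1) := Nat.le_mul_of_pos_left _ hn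
    omega
  have hnat : ∀ n : ℕ, n ≤ (C * A + C + 1) * wordLength S (v ^ n) := by
    intro n
    rcases Nat.eq_zero_or_pos n with h0 | hn
    · subst h0; exact Nat.zero_le _
    · have h1 := hC n
      have h2 := hA (v ^ n) (by rw [hS.2]; trivial)
      have h3 : 1 ≤ wordLength S (v ^ n) := by
        rcases Nat.eq_zero_or_pos (wordLength S (v ^ n)) with h | h
        · exact absurd (eq_one_of_wordLength hS.1 (by rw [hS.2]; trivial) h) (hne n hn)
        · exact h
      have h4 : C * wordLength S0 (v ^ n) ≤ C * (A * wordLength S (v ^ n)) :=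
        Nat.mul_le_mul_left C h2
      nlinarith [Nat.zero_le C]
  refine ⟨S, C * A + C + 1, ⟨v, hv1⟩, ⟨v⁻¹, hv2⟩, hS, rfl, rfl, ⟨wl_mul hS, wl_inv hS, by omega, ?_⟩⟩
  intro k
  obtain ⟨n, rfl | rfl⟩ := k.eq_nat_or_neg
  · rw [Int.natAbs_natCast, zpow_natCast]; exact hnat n
  · rw [Int.natAbs_neg, Int.natAbs_natCast, zpow_neg, zpow_natCast, wl_inv hS]; exact hnat n

/-- If `⟨v⟩` has infinite index in its centraliser then there are cosets of `⟨v⟩` far away. -/
theorem far_coset {S : Finset G} (hS : SymmGenerates S ⊤) {v : G}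
    (hfi : ¬ ((Subgroup.zpowers v).subgroupOf (Subgroup.centralizer {v})).FiniteIndex) (n : ℕ) :
    ∃ x : G, Commute v x ∧ ∀ k : ℤ, n < wordLength S (x * v ^ k) := by
  classical
  by_contra hcon
  push Not at hcon
  apply hfi
  have hmem : ∀ x : G, x ∈ Subgroup.centralizer {v} ↔ Commute v x := by
    intro x
    rw [Subgroup.mem_centralizer_singleton_iff]
    exact ⟨fun h => h.symm, fun h => h.symm⟩
  have hvC : ∀ k : ℤ, v ^ k ∈ Subgroup.centralizer {v} := fun k =>
    (hmem _).2 ((Commute.refl v).zpow_right k)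
  have hfin : Finite {g : G // wordLength S g ≤ n} := (ball_finite hS n).to_subtype
  let f : {g : G // wordLength S g ≤ n} →
      Subgroup.centralizer {v} ⧸ (Subgroup.zpowers v).subgroupOf (Subgroup.centralizer {v}) :=
    fun g => if h : (g : G) ∈ Subgroup.centralizer {v} then
      QuotientGroup.mk (⟨g, h⟩ : Subgroup.centralizer {v}) else
      QuotientGroup.mk (1 : Subgroup.centralizer {v})
  have hf : Function.Surjective f := by
    intro q
    obtain ⟨⟨x, hx⟩, rfl⟩ := QuotientGroup.mk_surjective q
    obtain ⟨k, hk⟩ := hcon x ((hmem x).1 hx)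
    have hxk : x * v ^ k ∈ Subgroup.centralizer {v} := mul_mem hx (hvC k)
    refine ⟨⟨x * v ^ k, hk⟩, ?_⟩
    simp only [f]
    rw [dif_pos hxk]
    apply QuotientGroup.eq.2
    rw [Subgroup.mem_subgroupOf]
    refine ⟨-k, ?_⟩
    simp [mul_assoc]
  have : Finite (Subgroup.centralizer {v} ⧸
      (Subgroup.zpowers v).subgroupOf (Subgroup.centralizer {v})) := Finite.of_surjective f hf
  exact Subgroup.finiteIndex_of_finite_quotient

theorem shortest (S : Finset G) (v x : G) : ∃ m : ℤ, ∀ k : ℤ,
    wordLength S (x * v ^ m) ≤ wordLength S (x * v ^ m * v ^ k) := by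
  obtain ⟨m, hm⟩ := Nat.sInf_mem (Set.range_nonempty fun m : ℤ => wordLength S (x * v ^ m))
  refine ⟨m, fun k => ?_⟩
  rw [mul_assoc x, ← zpow_add]
  simp only at hm
  rw [hm]
  exact Nat.sInf_le ⟨m + k, rfl⟩

/-- The choice of three parallel lines. -/
theorem choice {S : Finset G} (hS : SymmGenerates S ⊤) {v : G}
    (hfi : ¬ ((Subgroup.zpowers v).subgroupOf (Subgroup.centralizer {v})).FiniteIndex) (n : ℕ) :
    ∃ x y : G, Commute v x ∧ Commute v y ∧ n < wordLength S x ∧
      (∀ k : ℤ, wordLength S x ≤ wordLength S (x * v ^ k)) ∧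
      (∀ k : ℤ, wordLength S y ≤ wordLength S (y * v ^ k)) ∧
      (∀ k : ℤ, wordLength S y ≤ wordLength S (x * y * v ^ k)) ∧
      wordLength S x ≤ wordLength S y := by
  obtain ⟨x0, hx0, hx0'⟩ := far_coset hS hfi n
  obtain ⟨m, hm⟩ := shortest S v x0
  set x := x0 * v ^ m with hx
  have hcx : Commute v x := hx0.mul_right ((Commute.refl v).zpow_right m)
  have hxn : n < wordLength S x := hx0' m
  obtain ⟨z0, hz0, hz0'⟩ := far_coset hS hfi (2 * wordLength S x)
  obtain ⟨m1, hm1⟩ := shortest S v z0
  obtain ⟨m2, hm2⟩ := shortest S v (x⁻¹ * z0)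
  set z := z0 * v ^ m1 with hz
  set w := x⁻¹ * z0 * v ^ m2 with hw
  have hcz : Commute v z := hz0.mul_right ((Commute.refl v).zpow_right m1)
  have hcw : Commute v w := (hcx.inv_right.mul_right hz0).mul_right
    ((Commute.refl v).zpow_right m2)
  have hzl : 2 * wordLength S x < wordLength S z := hz0' m1
  by_cases hcase : wordLength S w ≤ wordLength S z
  · refine ⟨x, w, hcx, hcw, hxn, hm, hm2, ?_, ?_⟩
    · intro k
      refine hcase.trans ?_
      have h1 := hm1 (m2 - m1 + k)
      have h2 : z * v ^ (m2 - m1 + k) = x * w * v ^ k := by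
        rw [hz, hw]
        rw [zpow_add, zpow_sub]
        group
      rwa [h2] at h1
    · have h1 : 2 * wordLength S x < wordLength S (z0 * v ^ m2) := hz0' m2
      have h2 := wl_mul hS x w
      have h3 : x * w = z0 * v ^ m2 := by rw [hw]; group
      rw [h3] at h2
      omega
  · push Not at hcase
    refine ⟨x⁻¹, z, hcx.inv_right, hcz, by rwa [wl_inv hS], ?_, hm1, ?_, ?_⟩
    · intro k
      rw [wl_inv hS]
      have h1 := hm (-k)
      have h2 : (x⁻¹ * v ^ k)⁻¹ = x * v ^ (-k) := by
        rw [mul_inv_rev, inv_inv, ← zpow_neg]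
        exact (hcx.zpow_left (-k)).eq
      rw [← wl_inv hS (x⁻¹ * v ^ k), h2]
      exact h1
    · intro k
      refine hcase.le.trans ?_
      have h1 := hm2 (m1 - m2 + k)
      have h2 : w * v ^ (m1 - m2 + k) = x⁻¹ * z * v ^ k := by
        rw [hz, hw]
        rw [zpow_add, zpow_sub]
        group
      rwa [h2] at h1
    · rw [wl_inv hS]; omega

/-- Theorem A: in a `QCF` group an undistorted infinite cyclic subgroup has finite index in its
centraliser. -/
theorem centralizer_finiteIndex (hQ : IsQCF G) {v : G} (hv : UndistortedElement v) :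
    ((Subgroup.zpowers v).subgroupOf (Subgroup.centralizer {v})).FiniteIndex := by
  classical
  by_contra hfi
  obtain ⟨S, D, a, a', hS, ha, ha', hD⟩ := undistorted_lenData hv
  subst ha
  obtain ⟨K, hK⟩ := zone (hQ ((21 * D + 4 : ℕ) : ℚ) 0 S (by push_cast; nlinarith) le_rfl hS)
  obtain ⟨x, y, hcx, hcy, hKx, hsx, hsy, hxy, hle⟩ := choice hS hfi K
  obtain ⟨X, rfl, hX⟩ := exists_geodesic hS.1 (g := x) (by rw [hS.2]; trivial)
  obtain ⟨Y, rfl, hY⟩ := exists_geodesic hS.1 (g := y) (by rw [hS.2]; trivial)
  set M := (21 * D + 4) * wordLength S (ev S X) + 1 with hM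
  set M' := (21 * D + 4) * wordLength S (ev S Y) + 1 with hM'
  have hWmem : (List.replicate M a' ++ X) ++ List.replicate (4 * D * X.length) a ++
      (Y ++ List.replicate M' a') ∈ quasigeodesics S (((21 * D + 4 : ℕ) : ℚ) : ℝ) 0 := by
    intro u hu
    have h1 := path_qg hS ha' hD (X := X) (Y := Y) hX hY hcx hcy hsx hsy hxy hle M M' u (by
      simpa [List.append_assoc] using hu)
    have h2 : ((u.length : ℕ) : ℝ) ≤ (((21 * D + 4) * wordLength S (ev S u) : ℕ) : ℝ) := by
      exact_mod_cast h1
    push_cast at h2 ⊢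
    linarith
  have hbad1 : ¬ (List.replicate M a' ++ X ++ List.replicate M a ∈
      quasigeodesics S (((21 * D + 4 : ℕ) : ℚ) : ℝ) 0) := by
    intro h
    have h1 := h _ List.infix_rfl
    rw [ev_append, ev_append, ev_rep S a, ev_rep_inv S a a' ha'] at h1
    have h2 : (a : G) ^ (-(M : ℤ)) * ev S X * (a : G) ^ (M : ℤ) = ev S X := by
      rw [(hcx.zpow_left (-(M : ℤ))).eq, mul_assoc, ← zpow_add]
      simp
    rw [h2] at h1
    have h3 : (M + X.length + M : ℕ) ≤ (21 * D + 4) * wordLength S (ev S X) := by
      have h4 : ((M + X.length + M : ℕ) : ℝ) ≤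
          (((21 * D + 4) * wordLength S (ev S X) : ℕ) : ℝ) := by
        push_cast at h1 ⊢
        simp only [List.length_append, List.length_replicate] at h1
        push_cast at h1
        linarith
      exact_mod_cast h4
    omega
  have hbad2 : ¬ (List.replicate M' a ++ (Y ++ List.replicate M' a') ∈
      quasigeodesics S (((21 * D + 4 : ℕ) : ℚ) : ℝ) 0) := by
    intro h
    have h1 := h _ List.infix_rfl
    rw [ev_append, ev_append, ev_rep S a, ev_rep_inv S a a' ha'] at h1
    have h2 : (a : G) ^ (M' : ℤ) * (ev S Y * (a : G) ^ (-(M' : ℤ))) = ev S Y := by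
      rw [← mul_assoc, (hcy.zpow_left (M' : ℤ)).eq, mul_assoc, ← zpow_add]
      simp
    rw [h2] at h1
    have h3 : (M' + (Y.length + M') : ℕ) ≤ (21 * D + 4) * wordLength S (ev S Y) := by
      have h4 : ((M' + (Y.length + M') : ℕ) : ℝ) ≤
          (((21 * D + 4) * wordLength S (ev S Y) : ℕ) : ℝ) := by
        push_cast at h1 ⊢
        simp only [List.length_append, List.length_replicate] at h1
        push_cast at h1
        linarith
      exact_mod_cast h4
    omega
  have hlen : K ≤ (List.replicate (4 * D * X.length) a).length := by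
    rw [List.length_replicate, hX]
    have h1 : 1 ≤ 4 * D := by have := hD.pos; omega
    exact hKx.le.trans (Nat.le_mul_of_pos_left _ h1)
  have hallB : ∀ {l : List S}, (∀ b ∈ l, b ∈ List.replicate (4 * D * X.length) a) →
      ∀ b ∈ l, b = a := fun h b hb => List.eq_of_mem_replicate (h b hb)
  rcases hK _ _ _ hWmem hlen with ⟨B1, u, B2, w, B3, hB, hne, hn⟩ |
    ⟨P1, u, P2, B1, w, B2, hP, hB, hne, hn⟩ | ⟨B1, w, B2, Q1, u, Q2, hB, hQ', hne, hn⟩
  · have h1 := hn M
    obtain ⟨N, hN⟩ := eq_rep_of_mem (l := B1 ++ rep u M ++ B2 ++ rep w M ++ B3) (a := a) (m := M)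
      (hallB (by
        intro b hb
        rw [hB]
        simp only [List.mem_append] at hb ⊢
        rcases hb with (((hb | hb) | hb) | hb) | hb
        · tauto
        · have := mem_rep hb; tauto
        · tauto
        · have := mem_rep hb; tauto
        · tauto)) (by
        simp only [List.length_append, length_rep]
        have h2 : 1 ≤ u.length + w.length := by
          have := List.length_pos_iff.2 hne
          rwa [List.length_append] at this
        nlinarith [Nat.zero_le M])
    apply hbad1
    refine qg_infix h1 ⟨[], List.replicate N a ++ (Y ++ List.replicate M' a'), ?_⟩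
    rw [show List.replicate M a' ++ X ++ B1 ++ rep u M ++ B2 ++ rep w M ++ B3 ++
      (Y ++ List.replicate M' a') = List.replicate M a' ++ X ++
      (B1 ++ rep u M ++ B2 ++ rep w M ++ B3) ++ (Y ++ List.replicate M' a') by
        simp only [List.append_assoc], hN, List.replicate_add M N]
    simp only [List.nil_append, List.append_assoc]
  · have h1 := hn M'
    obtain ⟨N, hN⟩ := eq_rep_of_mem (l := B1 ++ rep w M' ++ B2) (a := a) (m := M')
      (hallB (by
        intro b hb
        rw [hB]
        simp only [List.mem_append] at hb ⊢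
        rcases hb with (hb | hb) | hb
        · tauto
        · have := mem_rep hb; tauto
        · tauto)) (by
        simp only [List.length_append, length_rep]
        have h2 : 1 ≤ w.length := List.length_pos_iff.2 hne
        nlinarith [Nat.zero_le M'])
    apply hbad2
    refine qg_infix h1 ⟨P1 ++ rep u M' ++ P2 ++ List.replicate N a, [], ?_⟩
    rw [show P1 ++ rep u M' ++ P2 ++ B1 ++ rep w M' ++ B2 ++ (Y ++ List.replicate M' a') =
      P1 ++ rep u M' ++ P2 ++ (B1 ++ rep w M' ++ B2) ++ (Y ++ List.replicate M' a') by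
        simp only [List.append_assoc], hN, add_comm M' N, List.replicate_add N M']
    simp only [List.append_nil, List.append_assoc]
  · have h1 := hn M
    obtain ⟨N, hN⟩ := eq_rep_of_mem (l := B1 ++ rep w M ++ B2) (a := a) (m := M)
      (hallB (by
        intro b hb
        rw [hB]
        simp only [List.mem_append] at hb ⊢
        rcases hb with (hb | hb) | hb
        · tauto
        · have := mem_rep hb; tauto
        · tauto)) (by
        simp only [List.length_append, length_rep]
        have h2 : 1 ≤ w.length := List.length_pos_iff.2 hne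
        nlinarith [Nat.zero_le M])
    apply hbad1
    refine qg_infix h1 ⟨[], List.replicate N a ++ Q1 ++ rep u M ++ Q2, ?_⟩
    rw [show List.replicate M a' ++ X ++ B1 ++ rep w M ++ B2 ++ Q1 ++ rep u M ++ Q2 =
      List.replicate M a' ++ X ++ (B1 ++ rep w M ++ B2) ++ Q1 ++ rep u M ++ Q2 by
        simp only [List.append_assoc], hN, List.replicate_add M N]
    simp only [List.nil_append, List.append_assoc]

end Pool.Agent.H.MP_21aec1_al
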