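import Pool.Agent.H.MP_21aec1_al.Main

set_option autoImplicit false

namespace Pool.Agent.H.MP_21aec1_al

variable {G : Type} [Group G]

theorem ev_rep_word (S : Finset G) (u : List S) (n : ℕ) : ev S (rep u n) = ev S u ^ n := by
  induction n with
  | zero => simp [ev]
  | succ n ih => rw [rep_succ, ev_append, ih, pow_succ']

/-- Consequence of the zone lemma with empty outer words: some nonempty word over the letters of
`B` has all its powers in the (factor closed) language. -/
theorem zone_powers {S : Finset G} {lam eps : ℝ} {B : List S}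
    (h : ZoneConcl (quasigeodesics S lam eps) [] B []) :
    ∃ t : List S, t ≠ [] ∧ (∀ b ∈ t, b ∈ B) ∧ ∀ n, rep t n ∈ quasigeodesics S lam eps := by
  rcases h with ⟨B1, u, B2, w, B3, hB, hne, hn⟩ | ⟨P1, u, P2, B1, w, B2, hP, hB, hne, hn⟩ |
    ⟨B1, w, B2, Q1, u, Q2, hB, hQ', hne, hn⟩
  · by_cases hu : u = []
    · have hw : w ≠ [] := by rintro rfl; exact hne (by rw [hu]; rfl)
      refine ⟨w, hw, fun b hb => by rw [hB]; simp [hb], fun n => ?_⟩
      exact qg_infix (hn n) ⟨[] ++ B1 ++ rep u n ++ B2, B3 ++ [], by simp only [List.append_assoc]⟩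
    · refine ⟨u, hu, fun b hb => by rw [hB]; simp [hb], fun n => ?_⟩
      exact qg_infix (hn n) ⟨[] ++ B1, B2 ++ rep w n ++ B3 ++ [], by
        simp only [List.append_assoc]⟩
  · refine ⟨w, hne, fun b hb => by rw [hB]; simp [hb], fun n => ?_⟩
    exact qg_infix (hn n) ⟨P1 ++ rep u n ++ P2 ++ B1, B2 ++ [], by simp only [List.append_assoc]⟩
  · refine ⟨w, hne, fun b hb => by rw [hB]; simp [hb], fun n => ?_⟩
    exact qg_infix (hn n) ⟨[] ++ B1, B2 ++ Q1 ++ rep u n ++ Q2, by
      simp only [List.append_assoc]⟩

/-- Theorem B: an infinite undistorted finitely generated subgroup of a `QCF` group contains an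
element generating an undistorted infinite cyclic subgroup. -/
theorem exists_undistorted (hQ : IsQCF G) {K : Subgroup G} (hK : UndistortedSubgroup K)
    (hinf : Infinite K) : ∃ v ∈ K, UndistortedElement v := by
  classical
  obtain ⟨S0, S', C, hS0, hS', hC⟩ := hK
  let S : Finset G := S0 ∪ S'
  have hS : SymmGenerates S ⊤ := by
    constructor
    · intro s hs
      simp only [S, Finset.mem_union] at hs ⊢
      rcases hs with hs | hs
      · exact Or.inl (hS0.1 s hs)
      · exact Or.inr (hS'.1 s hs)
    · rw [eq_top_iff, ← hS0.2]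
      exact Subgroup.closure_mono (by
        intro s hs; exact Finset.mem_coe.2 (Finset.mem_union_left _ hs))
  obtain ⟨A, hA⟩ := wordLength_compare hS.1 hS0.1 (by rw [hS0.2]; exact le_top)
  obtain ⟨Kz, hKz⟩ := zone (hQ ((C * A + 1 : ℕ) : ℚ) (C : ℝ) S (by push_cast; nlinarith [Nat.zero_le (C*A), (by positivity : (0:ℚ) ≤ (C:ℚ) * A)])
    (by positivity) hS)
  -- a long geodesic word over `S'`
  have hlong : ∃ k ∈ K, Kz ≤ wordLength S' k := by
    by_contra hcon
    push Not at hcon
    have h1 : {w : List S' | w.length ≤ Kz}.Finite := List.finite_length_le S' Kz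
    have h2 : (K : Set G).Finite := by
      refine (h1.image (ev S')).subset ?_
      intro g hg
      obtain ⟨w, hw, hw'⟩ := exists_geodesic hS'.1 (g := g) (by rw [hS'.2]; exact hg)
      exact ⟨w, by simpa [hw'] using (hcon g hg).le, hw⟩
    exact (Set.infinite_coe_iff.1 hinf) h2
  obtain ⟨k, hk, hkz⟩ := hlong
  obtain ⟨w, hw, hw'⟩ := exists_geodesic hS'.1 (g := k) (by rw [hS'.2]; exact hk)
  -- translate to a word over `S`
  let inc : S' → S := fun s => ⟨s, Finset.mem_union_right _ s.2⟩
  have hev : ∀ u : List S', ev S (u.map inc) = ev S' u := by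
    intro u; simp only [ev, List.map_map]; rfl
  -- geodesic sub-words over `S'`
  have hsub : ∀ u : List S', u <:+: w → u.length = wordLength S' (ev S' u) := by
    rintro u ⟨s, t, rfl⟩
    have h1 := wordLength_ev_le S' s
    have h2 := wordLength_ev_le S' u
    have h3 := wordLength_ev_le S' t
    have h4 := wordLength_mul hS'.1 (ev_mem S' (s ++ u)) (ev_mem S' t)
    have h5 := wordLength_mul hS'.1 (ev_mem S' s) (ev_mem S' u)
    rw [← ev_append] at h4 h5
    rw [← hw, List.length_append, List.length_append] at hw'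
    omega
  have hmem : ([] : List S) ++ w.map inc ++ [] ∈
      quasigeodesics S (((C * A + 1 : ℕ) : ℚ) : ℝ) (C : ℝ) := by
    intro u hu
    rw [List.nil_append, List.append_nil] at hu
    obtain ⟨u', hu', rfl⟩ : ∃ u', u' <:+: w ∧ u = u'.map inc := by
      obtain ⟨s, t, h⟩ := hu
      rw [eq_comm, List.map_eq_append_iff] at h
      obtain ⟨l1, l2, h1, h2, h3⟩ := h
      rw [List.map_eq_append_iff] at h2
      obtain ⟨l3, l4, h4, h5, h6⟩ := h2
      exact ⟨l4, ⟨l3, l2, by rw [h1, h4]⟩, h6.symm⟩
    rw [hev, List.length_map, hsub u' hu']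
    have hmK : ev S' u' ∈ K := by have := ev_mem S' u'; rwa [hS'.2] at this
    have h1 := hC _ hmK
    have h2 := hA (ev S' u') (by rw [hS.2]; trivial)
    have h3 : wordLength S' (ev S' u') ≤ (C * A + 1) * wordLength S (ev S' u') + C := by
      have h4 : C * wordLength S0 (ev S' u') ≤ C * (A * wordLength S (ev S' u')) :=
        Nat.mul_le_mul_left C h2
      nlinarith [Nat.zero_le (wordLength S (ev S' u'))]
    exact_mod_cast h3
  obtain ⟨t, ht, htB, htn⟩ := zone_powers (hKz [] (w.map inc) [] hmem (by
    rw [List.length_map, hw']; exact hkz))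
  refine ⟨ev S t, ?_, S, C * A + 1 + C, hS, ?_⟩
  · -- the value lies in `K`
    have : ∀ l : List S, (∀ b ∈ l, b ∈ w.map inc) → ev S l ∈ K := by
      intro l hl
      induction l with
      | nil => exact one_mem K
      | cons b l ih =>
        rw [ev_cons]
        refine mul_mem ?_ (ih fun c hc => hl c (List.mem_cons_of_mem _ hc))
        obtain ⟨s, _, hs⟩ := List.mem_map.1 (hl b List.mem_cons_self)
        rw [← hs]
        have : ((s : S') : G) ∈ Subgroup.closure (S' : Set G) := Subgroup.subset_closure s.2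
        rwa [hS'.2] at this
    exact this t htB
  · intro n
    have h1 := htn n _ List.infix_rfl
    rw [ev_rep_word, length_rep] at h1
    have h2 : n * t.length ≤ (C * A + 1) * wordLength S (ev S t ^ n) + C := by
      exact_mod_cast h1
    have h3 : 1 ≤ t.length := List.length_pos_iff.2 ht
    nlinarith [Nat.zero_le (C * wordLength S (ev S t ^ n))]

theorem UndistortedElement.pow {v : G} (hv : UndistortedElement v) {m : ℕ} (hm : 1 ≤ m) :
    UndistortedElement (v ^ m) := by
  obtain ⟨S, C, hS, hC⟩ := hv
  refine ⟨S, C, hS, fun n => ?_⟩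
  rw [← pow_mul]
  exact (Nat.le_mul_of_pos_left n hm).trans (hC (m * n))

/-- Theorem C: the centraliser of an infinite undistorted finitely generated subgroup which is not
virtually cyclic is finite. -/
theorem centralizer_dichotomy (hQ : IsQCF G) {K : Subgroup G} (hK : UndistortedSubgroup K)
    (hinf : Infinite K) :
    (∃ v ∈ K, ((Subgroup.zpowers v).subgroupOf K).FiniteIndex) ∨
      Finite (Subgroup.centralizer (K : Set G)) := by
  obtain ⟨v, hvK, hv⟩ := exists_undistorted hQ hK hinf
  by_cases hfin : Finite (Subgroup.centralizer (K : Set G))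
  · exact Or.inr hfin
  left
  have h1 := centralizer_finiteIndex hQ hv
  have hle : Subgroup.centralizer (K : Set G) ≤ Subgroup.centralizer {v} :=
    Subgroup.centralizer_le (by simpa using hvK)
  have h2 : (Subgroup.zpowers v).relIndex (Subgroup.centralizer (K : Set G)) ≠ 0 := by
    have h3 : (Subgroup.zpowers v).relIndex (Subgroup.centralizer {v}) ≠ 0 := h1.index_ne_zero
    exact fun h0 => h3 (Subgroup.relIndex_eq_zero_of_le_right hle h0)
  -- a nontrivial power of `v` centralises `K`
  obtain ⟨m, hm, hmc⟩ : ∃ m : ℕ, 1 ≤ m ∧ v ^ m ∈ Subgroup.centralizer (K : Set G) := by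
    by_contra hcon
    push Not at hcon
    apply hfin
    have hbot : Subgroup.zpowers v ⊓ Subgroup.centralizer (K : Set G) = ⊥ := by
      rw [eq_bot_iff]
      rintro g ⟨⟨k, rfl⟩, hg⟩
      simp only at hg ⊢
      obtain ⟨n, rfl | rfl⟩ := k.eq_nat_or_neg
      · rcases Nat.eq_zero_or_pos n with h0 | h0
        · subst h0; simp
        · exact absurd (by simpa using hg) (hcon n h0)
      · rcases Nat.eq_zero_or_pos n with h0 | h0
        · subst h0; simp
        · refine absurd ?_ (hcon n h0)
          have := (Subgroup.centralizer (K : Set G)).inv_mem hg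
          rwa [zpow_neg, inv_inv, zpow_natCast] at this
    have h4 : (Subgroup.zpowers v).relIndex (Subgroup.centralizer (K : Set G)) =
        Nat.card (Subgroup.centralizer (K : Set G)) := by
      rw [← Subgroup.inf_relIndex_right, hbot, Subgroup.relIndex_bot_left]
    rw [h4] at h2
    exact (Nat.card_ne_zero.1 h2).2
  have h5 := centralizer_finiteIndex hQ (hv.pow hm)
  have h6 : K ≤ Subgroup.centralizer {v ^ m} := by
    intro k hk
    rw [Subgroup.mem_centralizer_singleton_iff]
    have := (Subgroup.mem_centralizer_iff.1 hmc) k hk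
    exact this
  refine ⟨v ^ m, pow_mem hvK m, ⟨?_⟩⟩
  have h7 : (Subgroup.zpowers (v ^ m)).relIndex (Subgroup.centralizer {v ^ m}) ≠ 0 :=
    h5.index_ne_zero
  exact fun h0 => h7 (Subgroup.relIndex_eq_zero_of_le_right h6 h0)

end Pool.Agent.H.MP_21aec1_al
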