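import Mathlib

set_option autoImplicit false

namespace Pool.Agent.H.MP_21aec1_al

open ContextFreeGrammar

variable {T : Type}

section tree

variable {α β : Type} {R : α → β → Prop}

theorem forall₂_split {a b : List α} {l : List β} (h : List.Forall₂ R (a ++ b) l) :
    ∃ l1 l2, l = l1 ++ l2 ∧ List.Forall₂ R a l1 ∧ List.Forall₂ R b l2 := by
  induction a generalizing l with
  | nil => exact ⟨[], l, rfl, List.Forall₂.nil, h⟩
  | cons x a ih =>
    cases h with
    | cons hx hl =>
      obtain ⟨l1, l2, rfl, h1, h2⟩ := ih hl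
      exact ⟨_ :: l1, l2, rfl, List.Forall₂.cons hx h1, h2⟩

theorem forall₂_split' {a b : List β} {l : List α} (h : List.Forall₂ R l (a ++ b)) :
    ∃ l1 l2, l = l1 ++ l2 ∧ List.Forall₂ R l1 a ∧ List.Forall₂ R l2 b := by
  induction a generalizing l with
  | nil => exact ⟨[], l, rfl, List.Forall₂.nil, h⟩
  | cons x a ih =>
    cases h with
    | cons hx hl =>
      obtain ⟨l1, l2, rfl, h1, h2⟩ := ih hl
      exact ⟨_ :: l1, l2, rfl, List.Forall₂.cons hx h1, h2⟩

theorem forall₂_join {a b : List α} {a' b' : List β} (h1 : List.Forall₂ R a a')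
    (h2 : List.Forall₂ R b b') : List.Forall₂ R (a ++ b) (a' ++ b') := by
  induction h1 with
  | nil => exact h2
  | cons h _ ih => exact List.Forall₂.cons h ih

end tree

/-- `DerN g n A w`: the nonterminal `A` derives the terminal word `w` by a derivation tree of
height at most `n`. -/
def DerN (g : ContextFreeGrammar T) : ℕ → g.NT → List T → Prop
  | 0, _, _ => False
  | n + 1, A, w => ∃ r ∈ g.rules, r.input = A ∧ ∃ pcs : List (List T),
      List.Forall₂ (fun (sy : Symbol T g.NT) (pc : List T) => match sy with
        | Symbol.terminal a => pc = [a]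
        | Symbol.nonterminal B => DerN g n B pc) r.output pcs ∧ w = pcs.flatten

/-- a symbol yields a piece, with height at most `n`. -/
def SyN (g : ContextFreeGrammar T) (n : ℕ) (sy : Symbol T g.NT) (pc : List T) : Prop :=
  match sy with
  | Symbol.terminal a => pc = [a]
  | Symbol.nonterminal B => DerN g n B pc

theorem DerN_succ (g : ContextFreeGrammar T) (n : ℕ) (A : g.NT) (w : List T) :
    DerN g (n + 1) A w ↔ ∃ r ∈ g.rules, r.input = A ∧ ∃ pcs : List (List T),
      List.Forall₂ (SyN g n) r.output pcs ∧ w = pcs.flatten := Iff.rfl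

theorem DerN_mono (g : ContextFreeGrammar T) {n m : ℕ} (h : n ≤ m) : ∀ {A : g.NT} {w : List T},
    DerN g n A w → DerN g m A w := by
  induction n generalizing m with
  | zero => intro A w h; exact h.elim
  | succ n ih =>
    intro A w hd
    obtain ⟨m, rfl⟩ : ∃ m', m = m' + 1 := ⟨m - 1, by omega⟩
    rw [DerN_succ] at hd ⊢
    obtain ⟨r, hr, hi, pcs, hp, hw⟩ := hd
    refine ⟨r, hr, hi, pcs, ?_, hw⟩
    refine hp.imp ?_
    intro sy pc h
    cases sy with
    | terminal a => exact h
    | nonterminal B => exact ih (by omega) h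

theorem SyN_mono (g : ContextFreeGrammar T) {n m : ℕ} (h : n ≤ m) {sy : Symbol T g.NT}
    {pc : List T} (hs : SyN g n sy pc) : SyN g m sy pc := by
  cases sy with
  | terminal a => exact hs
  | nonterminal B => exact DerN_mono g h hs

/-- Existence of a tree. -/
def Der (g : ContextFreeGrammar T) (A : g.NT) (w : List T) : Prop := ∃ n, DerN g n A w

/-- A symbol yields a piece. -/
def Sy (g : ContextFreeGrammar T) (sy : Symbol T g.NT) (pc : List T) : Prop := ∃ n, SyN g n sy pc

/-- From a list of yields to one with a common height. -/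
theorem forall₂_common (g : ContextFreeGrammar T) {s : List (Symbol T g.NT)}
    {pcs : List (List T)} (h : List.Forall₂ (Sy g) s pcs) :
    ∃ n, List.Forall₂ (SyN g n) s pcs := by
  induction h with
  | nil => exact ⟨0, List.Forall₂.nil⟩
  | cons hd _ ih =>
    obtain ⟨n1, h1⟩ := hd
    obtain ⟨n2, h2⟩ := ih
    exact ⟨max n1 n2, List.Forall₂.cons (SyN_mono g (le_max_left _ _) h1)
      (h2.imp fun _ _ h => SyN_mono g (le_max_right _ _) h)⟩

theorem der_of_rule (g : ContextFreeGrammar T) {r : ContextFreeRule T g.NT} (hr : r ∈ g.rules)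
    {pcs : List (List T)} (h : List.Forall₂ (Sy g) r.output pcs) :
    Der g r.input pcs.flatten := by
  obtain ⟨n, hn⟩ := forall₂_common g h
  exact ⟨n + 1, (DerN_succ g n _ _).2 ⟨r, hr, rfl, pcs, hn, rfl⟩⟩

theorem derives_pieces (g : ContextFreeGrammar T) (w : List T) (s : List (Symbol T g.NT))
    (h : g.Derives s (w.map Symbol.terminal)) :
    ∃ pcs : List (List T), List.Forall₂ (Sy g) s pcs ∧ w = pcs.flatten := by
  induction h using Relation.ReflTransGen.head_induction_on with
  | refl =>
    refine ⟨w.map fun a => [a], ?_, ?_⟩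
    · induction w with
      | nil => exact List.Forall₂.nil
      | cons a w ih => exact List.Forall₂.cons ⟨0, rfl⟩ ih
    · induction w with
      | nil => rfl
      | cons a w ih => simpa using ih
  | head hst _ ih =>
    rename_i s1 s2
    obtain ⟨r, hr, hrw⟩ := hst
    obtain ⟨p, q, rfl, rfl⟩ := hrw.exists_parts
    obtain ⟨pcs, hf, hw⟩ := ih
    obtain ⟨l12, l3, rfl, hf12, hf3⟩ := forall₂_split hf
    obtain ⟨l1, l2, rfl, hf1, hf2⟩ := forall₂_split hf12
    refine ⟨l1 ++ [l2.flatten] ++ l3, ?_, ?_⟩
    · refine forall₂_join (forall₂_join hf1 ?_) hf3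
      obtain ⟨n, hn⟩ := der_of_rule g hr hf2
      exact List.Forall₂.cons ⟨n, hn⟩ List.Forall₂.nil
    · rw [hw]; simp

theorem der_of_mem (g : ContextFreeGrammar T) {w : List T} (h : w ∈ g.language) :
    Der g g.initial w := by
  obtain ⟨pcs, hf, hw⟩ := derives_pieces g w _ h
  cases hf with
  | cons h1 h2 =>
    cases h2
    obtain ⟨n, hn⟩ := h1
    simp only [List.flatten_cons, List.flatten_nil, List.append_nil] at hw
    exact ⟨n, hw ▸ hn⟩

theorem derives_of_pieces (g : ContextFreeGrammar T) (n : ℕ) :
    (∀ (A : g.NT) (w : List T), DerN g n A w →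
      g.Derives [Symbol.nonterminal A] (w.map Symbol.terminal)) ∧
    (∀ (s : List (Symbol T g.NT)) (pcs : List (List T)), List.Forall₂ (SyN g n) s pcs →
      g.Derives s (pcs.flatten.map Symbol.terminal)) := by
  induction n with
  | zero =>
    have h1 : ∀ (A : g.NT) (w : List T), DerN g 0 A w →
      g.Derives [Symbol.nonterminal A] (w.map Symbol.terminal) := fun A w h => h.elim
    refine ⟨h1, ?_⟩
    intro s pcs h
    induction h with
    | nil => exact Relation.ReflTransGen.refl
    | @cons sy pc s pcs hd _ ih =>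
      cases sy with
      | terminal a =>
        have : pc = [a] := hd
        subst this
        simpa using ih.append_left [Symbol.terminal a]
      | nonterminal B => exact (show False from hd).elim
  | succ n IH =>
    have h1 : ∀ (A : g.NT) (w : List T), DerN g (n + 1) A w →
        g.Derives [Symbol.nonterminal A] (w.map Symbol.terminal) := by
      intro A w h
      rw [DerN_succ] at h
      obtain ⟨r, hr, rfl, pcs, hf, rfl⟩ := h
      exact (Produces.single ⟨r, hr, ContextFreeRule.Rewrites.input_output⟩).trans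
        (IH.2 _ _ hf)
    refine ⟨h1, ?_⟩
    intro s pcs h
    induction h with
    | nil => exact Relation.ReflTransGen.refl
    | @cons sy pc s pcs hd _ ih =>
      cases sy with
      | terminal a =>
        have : pc = [a] := hd
        subst this
        simpa using ih.append_left [Symbol.terminal a]
      | nonterminal B =>
        have h2 := (h1 B pc hd).append_right s
        have h3 := ih.append_left (pc.map Symbol.terminal)
        have h4 := h2.trans h3
        simpa using h4

theorem mem_of_der (g : ContextFreeGrammar T) {w : List T} (h : Der g g.initial w) :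
    w ∈ g.language := by
  obtain ⟨n, hn⟩ := h
  exact (derives_of_pieces g n).1 _ _ hn

/-- Alignment of a marked sub-word: `p ++ b ++ q = x ++ (p' ++ b' ++ q') ++ y`, with the marked
part `b'` of the inner word contained in the marked part `b`. -/
def Align (p b q x y p' b' q' : List T) : Prop :=
  ∃ b1 b2, b = b1 ++ b' ++ b2 ∧ x ++ p' = p ++ b1 ∧ (b1 = [] ∨ p' = []) ∧
    q' ++ y = b2 ++ q ∧ (b2 = [] ∨ q' = [])

theorem Align.refl (p b q : List T) : Align p b q [] [] p b q :=
  ⟨[], [], by simp, by simp, Or.inl rfl, by simp, Or.inl rfl⟩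

theorem Align.trans {p b q x y p' b' q' x' y' p'' b'' q'' : List T}
    (h1 : Align p b q x y p' b' q') (h2 : Align p' b' q' x' y' p'' b'' q'') :
    Align p b q (x ++ x') (y' ++ y) p'' b'' q'' := by
  obtain ⟨b1, b2, hb, hx, hx', hy, hy'⟩ := h1
  obtain ⟨c1, c2, hc, hz, hz', ht, ht'⟩ := h2
  refine ⟨b1 ++ c1, c2 ++ b2, ?_, ?_, ?_, ?_, ?_⟩
  · rw [hb, hc]; simp
  · rw [List.append_assoc, hz, ← List.append_assoc, hx, List.append_assoc]
  · rcases hz' with hz' | hz'
    · rcases hx' with hx' | hx'
      · left; simp [hx', hz']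
      · right
        rw [hz', hx'] at hz
        simp only [List.append_nil, List.append_eq_nil_iff] at hz
        exact hz.2
    · exact Or.inr hz'
  · rw [← List.append_assoc, ht, List.append_assoc, hy, List.append_assoc]
  · rcases ht' with ht' | ht'
    · rcases hy' with hy' | hy'
      · left; simp [hy', ht']
      · right
        rw [ht', hy'] at ht
        simp only [List.append_nil, List.append_eq_nil_iff] at ht
        exact ht.1
    · exact Or.inr ht'

theorem Align.eq {p b q x y p' b' q' : List T} (h : Align p b q x y p' b' q') :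
    x ++ (p' ++ b' ++ q') ++ y = p ++ b ++ q := by
  obtain ⟨b1, b2, hb, hx, _, hy, _⟩ := h
  calc x ++ (p' ++ b' ++ q') ++ y = (x ++ p') ++ b' ++ (q' ++ y) := by simp
    _ = p ++ b ++ q := by rw [hx, hy, hb]; simp

/-- Pigeonhole: if a word cut into `k` pieces contains at least `k * m` marked letters, then one
of the pieces contains at least `m` marked letters. -/
theorem pieces_pigeon : ∀ (pcs : List (List T)) (p b q : List T) (m : ℕ), 1 ≤ m → b ≠ [] →
    pcs.flatten = p ++ b ++ q → pcs.length * m ≤ b.length →
    ∃ (L1 : List (List T)) (pc : List T) (L2 : List (List T)) (p' b' q' : List T),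
      pcs = L1 ++ [pc] ++ L2 ∧ pc = p' ++ b' ++ q' ∧
      Align p b q L1.flatten L2.flatten p' b' q' ∧ m ≤ b'.length := by
  intro pcs
  induction pcs with
  | nil =>
    intro p b q m hm hb h _
    simp only [List.flatten_nil, List.nil_eq, List.append_eq_nil_iff] at h
    exact absurd h.1.2 hb
  | cons pc pcs ih =>
    intro p b q m hm hb h hlen
    rw [List.flatten_cons] at h
    rw [List.length_cons] at hlen
    have hlen' : pcs.length * m + m ≤ b.length := by
      have : (pcs.length + 1) * m = pcs.length * m + m := by ring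
      omega
    -- compare the end of `pc` with the end of `p`
    by_cases h1 : pc.length ≤ p.length
    · -- `pc` is a prefix of `p`
      obtain ⟨p1, hp1⟩ : ∃ p1, p = pc ++ p1 := by
        have h2 : pc <+: p := by
          have h3 : pc <+: p ++ (b ++ q) := ⟨pcs.flatten, by rw [h, List.append_assoc]⟩
          exact List.prefix_of_prefix_length_le h3 (List.prefix_append _ _) h1
        obtain ⟨p1, hp1⟩ := h2
        exact ⟨p1, hp1.symm⟩
      subst hp1
      have h4 : pcs.flatten = p1 ++ b ++ q := by
        have : pc ++ pcs.flatten = pc ++ (p1 ++ b ++ q) := by rw [h]; simp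
        exact List.append_cancel_left this
      obtain ⟨L1, pc', L2, p', b', q', e1, e2, e3, e4⟩ := ih p1 b q m hm hb h4 (by omega)
      refine ⟨pc :: L1, pc', L2, p', b', q', by rw [e1]; simp, e2, ?_, e4⟩
      obtain ⟨b1, b2, k1, k2, k3, k4, k5⟩ := e3
      exact ⟨b1, b2, k1, by simp only [List.flatten_cons, List.append_assoc, k2], k3, k4, k5⟩
    · push Not at h1
      obtain ⟨c, hc⟩ : ∃ c, pc = p ++ c := by
        have h2 : p <+: pc := by
          have h3 : p <+: pc ++ pcs.flatten := ⟨b ++ q, by rw [h, List.append_assoc]⟩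
          exact List.prefix_of_prefix_length_le h3 (List.prefix_append _ _) h1.le
        obtain ⟨c, hc⟩ := h2
        exact ⟨c, hc.symm⟩
      subst hc
      have h4 : c ++ pcs.flatten = b ++ q := by
        have : p ++ (c ++ pcs.flatten) = p ++ (b ++ q) := by
          rw [← List.append_assoc, h, List.append_assoc]
        exact List.append_cancel_left this
      by_cases h5 : c.length ≤ b.length
      · -- `c` is a prefix of `b`
        obtain ⟨b1, hb1⟩ : ∃ b1, b = c ++ b1 := by
          have h2 : c <+: b := by
            have h3 : c <+: b ++ q := ⟨pcs.flatten, h4⟩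
            exact List.prefix_of_prefix_length_le h3 (List.prefix_append _ _) h5
          obtain ⟨p1, hp1⟩ := h2
          exact ⟨p1, hp1.symm⟩
        subst hb1
        by_cases h6 : m ≤ c.length
        · refine ⟨[], p ++ c, pcs, p, c, [], by simp, by simp, ?_, h6⟩
          refine ⟨[], b1, by simp, by simp, Or.inl rfl, ?_, Or.inr rfl⟩
          have : c ++ pcs.flatten = c ++ (b1 ++ q) := by rw [h4]; simp
          simpa using List.append_cancel_left this
        · push Not at h6
          rw [List.length_append] at hlen'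
          have h7 : pcs.flatten = [] ++ b1 ++ q := by
            have : c ++ pcs.flatten = c ++ (b1 ++ q) := by rw [h4]; simp
            simpa using List.append_cancel_left this
          have hb1 : b1 ≠ [] := by
            intro h8
            rw [h8] at hlen'
            simp only [List.length_nil] at hlen'
            omega
          obtain ⟨L1, pc', L2, p', b', q', e1, e2, e3, e4⟩ := ih [] b1 q m hm hb1 h7 (by omega)
          refine ⟨(p ++ c) :: L1, pc', L2, p', b', q', by rw [e1]; simp, e2, ?_, e4⟩
          obtain ⟨c1, c2, k1, k2, k3, k4, k5⟩ := e3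
          refine ⟨c ++ c1, c2, by rw [k1]; simp, ?_, ?_, k4, k5⟩
          · rw [List.flatten_cons, List.append_assoc, k2]; simp
          · rcases k3 with k3 | k3
            · right
              rw [k3] at k2
              simp only [List.append_nil, List.append_eq_nil_iff] at k2
              exact k2.2
            · exact Or.inr k3
      · push Not at h5
        obtain ⟨d, hd⟩ : ∃ d, c = b ++ d := by
          have h2 : b <+: c := by
            have h3 : b <+: c ++ pcs.flatten := ⟨q, h4.symm⟩
            exact List.prefix_of_prefix_length_le h3 (List.prefix_append _ _) h5.le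
          obtain ⟨p1, hp1⟩ := h2
          exact ⟨p1, hp1.symm⟩
        subst hd
        refine ⟨[], p ++ (b ++ d), pcs, p, b, d, by simp, by simp, ?_, by omega⟩
        refine ⟨[], [], by simp, by simp, Or.inl rfl, ?_, Or.inl rfl⟩
        have : b ++ (d ++ pcs.flatten) = b ++ q := by rw [← List.append_assoc, h4]
        simpa using List.append_cancel_left this

/-- The context relation: replacing. -/
def Ctx (g : ContextFreeGrammar T) (A C : g.NT) (x y : List T) : Prop :=
  ∀ w, Der g C w → Der g A (x ++ w ++ y)

theorem Ctx.trans {g : ContextFreeGrammar T} {A B C : g.NT} {x y x' y' : List T}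
    (h1 : Ctx g A B x y) (h2 : Ctx g B C x' y') : Ctx g A C (x ++ x') (y' ++ y) := by
  intro w hw
  have := h1 _ (h2 w hw)
  simpa [List.append_assoc] using this

theorem Ctx.refl (g : ContextFreeGrammar T) (A : g.NT) : Ctx g A A [] [] := by
  intro w hw; simpa using hw

/-- A bound for the length of the right hand sides. -/
def width (g : ContextFreeGrammar T) : ℕ := (g.rules.sup fun r => r.output.length) + 1

theorem step (g : ContextFreeGrammar T) : ∀ (n : ℕ) (A : g.NT) (p b q : List T) (m : ℕ), 2 ≤ m →
    DerN g n A (p ++ b ++ q) → width g * m ≤ b.length →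
    ∃ (C : g.NT) (x y p' b' q' : List T), Der g C (p' ++ b' ++ q') ∧ Ctx g A C x y ∧
      Align p b q x y p' b' q' ∧ m ≤ b'.length ∧ b'.length < b.length := by
  intro n
  induction n with
  | zero => intro A p b q m _ h; exact h.elim
  | succ n ih =>
    intro A p b q m hm h hlen
    rw [DerN_succ] at h
    obtain ⟨r, hr, rfl, pcs, hf, hw⟩ := h
    have hwid : 1 ≤ width g := by unfold width; omega
    have hb : b ≠ [] := by
      rintro rfl
      simp only [List.length_nil] at hlen
      nlinarith
    have hl : pcs.length = r.output.length := hf.length_eq.symm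
    have hl2 : r.output.length ≤ width g := by
      unfold width
      exact (Finset.le_sup (f := fun r : ContextFreeRule T g.NT => r.output.length) hr).trans
        (Nat.le_succ _)
    have hl3 : pcs.length * m ≤ b.length := by
      rw [hl]; exact (Nat.mul_le_mul_right m hl2).trans hlen
    obtain ⟨L1, pc, L2, p', b', q', e1, e2, e3, e4⟩ :=
      pieces_pigeon pcs p b q m (by omega) hb hw.symm hl3
    subst e1
    obtain ⟨s12, s3, hs, hf12, hf3⟩ := forall₂_split' hf
    obtain ⟨s1, s2, rfl, hf1, hf2⟩ := forall₂_split' hf12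
    cases hf2 with
    | cons h1 h2 =>
      cases h2
      rename_i sy
      cases sy with
      | terminal a =>
        have h3 : pc = [a] := h1
        rw [e2] at h3
        have h4 := congrArg List.length h3
        simp only [List.length_append, List.length_singleton] at h4
        omega
      | nonterminal B =>
        have hB : DerN g n B pc := h1
        have hctx : Ctx g r.input B L1.flatten L2.flatten := by
          intro w hw
          have hf' : List.Forall₂ (Sy g) r.output (L1 ++ [w] ++ L2) := by
            rw [hs]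
            refine forall₂_join (forall₂_join (hf1.imp fun _ _ h => ⟨n, h⟩) ?_)
              (hf3.imp fun _ _ h => ⟨n, h⟩)
            obtain ⟨k, hk⟩ := hw
            exact List.Forall₂.cons ⟨k, hk⟩ List.Forall₂.nil
          have := der_of_rule g hr hf'
          simpa using this
        by_cases hlt : b'.length < b.length
        · exact ⟨B, L1.flatten, L2.flatten, p', b', q', ⟨n, e2 ▸ hB⟩, hctx, e3, e4, hlt⟩
        · have e3' := e3
          obtain ⟨b1, b2, k1, k2, k3, k4, k5⟩ := e3
          have h5 := congrArg List.length k1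
          simp only [List.length_append] at h5
          have hb1 : b1 = [] := List.eq_nil_of_length_eq_zero (by omega)
          have hb2 : b2 = [] := List.eq_nil_of_length_eq_zero (by omega)
          have hbb : b' = b := by rw [k1, hb1, hb2]; simp
          subst hbb
          obtain ⟨C, x, y, p'', b'', q'', f1, f2, f3, f4, f5⟩ :=
            ih B p' b' q' m hm (e2 ▸ hB) hlen
          exact ⟨C, L1.flatten ++ x, y ++ L2.flatten, p'', b'', q'', f1, hctx.trans f2,
            e3'.trans f3, f4, f5⟩

/-- Nodes of the derivation tree with their marked words. -/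
structure Nd (g : ContextFreeGrammar T) where
  /-- nonterminal -/
  A : g.NT
  /-- unmarked left part -/
  p : List T
  /-- marked part -/
  b : List T
  /-- unmarked right part -/
  q : List T
  /-- the tree -/
  h : Der g A (p ++ b ++ q)

/-- Proper descendant with fewer marked letters. -/
def Rel {g : ContextFreeGrammar T} (s t : Nd g) : Prop :=
  ∃ x y, Ctx g s.A t.A x y ∧ Align s.p s.b s.q x y t.p t.b t.q ∧ t.b.length < s.b.length

theorem Rel.trans {g : ContextFreeGrammar T} {s t u : Nd g} (h1 : Rel s t) (h2 : Rel t u) :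
    Rel s u := by
  obtain ⟨x, y, c1, a1, l1⟩ := h1
  obtain ⟨x', y', c2, a2, l2⟩ := h2
  exact ⟨x ++ x', y' ++ y, c1.trans c2, a1.trans a2, l2.trans l1⟩

theorem width_pos (g : ContextFreeGrammar T) : 1 ≤ width g := by unfold width; omega

theorem chain (g : ContextFreeGrammar T) (m : ℕ) (hm : 2 ≤ m) : ∀ (k : ℕ) (s : Nd g),
    width g ^ k * m ≤ s.b.length →
    ∃ f : ℕ → Nd g, f 0 = s ∧ (∀ i < k, Rel (f i) (f (i + 1))) ∧ m ≤ (f k).b.length := by
  intro k
  induction k with
  | zero =>
    intro s hs
    exact ⟨fun _ => s, rfl, fun i hi => absurd hi (Nat.not_lt_zero i), by simpa using hs⟩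
  | succ k ih =>
    intro s hs
    obtain ⟨n, hn⟩ := s.h
    have h2 : 2 ≤ width g ^ k * m :=
      hm.trans (Nat.le_mul_of_pos_left m (Nat.pow_pos (width_pos g)))
    obtain ⟨C, x, y, p', b', q', d1, d2, d3, d4, d5⟩ :=
      step g n s.A s.p s.b s.q (width g ^ k * m) h2 hn (by
        rw [← mul_assoc, ← pow_succ']; exact hs)
    obtain ⟨f, f0, f1, f2⟩ := ih ⟨C, p', b', q', d1⟩ d4
    refine ⟨fun i => Nat.casesOn i s f, rfl, ?_, f2⟩
    intro i hi
    cases i with
    | zero =>
      change Rel s (f 0)
      rw [f0]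
      exact ⟨x, y, d2, d3, d5⟩
    | succ i => exact f1 i (by omega)

theorem chain_rel {g : ContextFreeGrammar T} {f : ℕ → Nd g} {k : ℕ}
    (h : ∀ i < k, Rel (f i) (f (i + 1))) : ∀ (i j : ℕ), i < j → j ≤ k → Rel (f i) (f j) := by
  intro i j hij
  induction j with
  | zero => omega
  | succ j ih =>
    intro hj
    by_cases h1 : i = j
    · subst h1; exact h i (by omega)
    · exact (ih (by omega) (by omega)).trans (h j (by omega))

theorem input_mem (g : ContextFreeGrammar T) {A : g.NT} {w : List T} (h : Der g A w) :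
    ∃ r ∈ g.rules, r.input = A := by
  obtain ⟨n, hn⟩ := h
  cases n with
  | zero => exact hn.elim
  | succ n =>
    rw [DerN_succ] at hn
    obtain ⟨r, hr, hi, _⟩ := hn
    exact ⟨r, hr, hi⟩

/-- The block lemma. -/
theorem block (g : ContextFreeGrammar T) (m : ℕ) (hm : 2 ≤ m) (s : Nd g)
    (hs : width g ^ (g.rules.card + 1) * m ≤ s.b.length) :
    ∃ t u : Nd g, (∃ x y, Ctx g s.A t.A x y ∧ Align s.p s.b s.q x y t.p t.b t.q) ∧
      Rel t u ∧ t.A = u.A ∧ m ≤ u.b.length := by
  classical
  obtain ⟨f, f0, f1, f2⟩ := chain g m hm _ s hs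
  have hmono : ∀ i ≤ g.rules.card + 1, (f (g.rules.card + 1)).b.length ≤ (f i).b.length := by
    intro i hi
    rcases Nat.lt_or_eq_of_le hi with h | h
    · obtain ⟨_, _, _, _, h3⟩ := chain_rel f1 i _ h le_rfl
      exact h3.le
    · rw [h]
  have hmaps : ∀ i ∈ Finset.range (g.rules.card + 1),
      (f i).A ∈ g.rules.image (fun r => r.input) := by
    intro i _
    obtain ⟨r, hr, hi⟩ := input_mem g (f i).h
    exact Finset.mem_image.2 ⟨r, hr, hi⟩
  have hcard : (g.rules.image (fun r => r.input)).card < (Finset.range (g.rules.card + 1)).card := by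
    rw [Finset.card_range]
    exact lt_of_le_of_lt Finset.card_image_le (Nat.lt_succ_self _)
  obtain ⟨i, hi, j, hj, hij, hA⟩ := Finset.exists_ne_map_eq_of_card_lt_of_maps_to hcard hmaps
  rw [Finset.mem_range] at hi hj
  -- wlog i < j
  obtain ⟨i, j, hi, hj, hij, hA⟩ : ∃ i j, i < g.rules.card + 1 ∧ j < g.rules.card + 1 ∧ i < j ∧
      (f i).A = (f j).A := by
    rcases Nat.lt_or_gt_of_ne hij with h | h
    · exact ⟨i, j, hi, hj, h, hA⟩
    · exact ⟨j, i, hj, hi, h, hA.symm⟩
  refine ⟨f i, f j, ?_, chain_rel f1 i j hij (by omega), hA, f2.trans (hmono j (by omega))⟩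
  rcases Nat.eq_zero_or_pos i with h | h
  · subst h
    rw [f0]
    exact ⟨[], [], Ctx.refl _ _, Align.refl _ _ _⟩
  · obtain ⟨x, y, h1, h2, _⟩ := chain_rel f1 0 i h (by omega)
    rw [f0] at h1 h2
    exact ⟨x, y, h1, h2⟩

/-- An alignment which does not straddle the borders of the marked zone. -/
def Good (p b q X Y p' b' q' : List T) : Prop :=
  ∃ b1 b2, b = b1 ++ b' ++ b2 ∧ X ++ p' = p ++ b1 ∧ (b1 = [] ∨ p' = []) ∧
    q' ++ Y = b2 ++ q ∧ (b2 = [] ∨ q' = []) ∧ (b1 = [] ∨ p = []) ∧ (b2 = [] ∨ q = [])

theorem Align.good {p b q X Y p' b' q' : List T} (h : Align p b q X Y p' b' q') :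
    Good p b q X Y p' b' q' ∨ (p ≠ [] ∧ p' = []) ∨ (q ≠ [] ∧ q' = []) := by
  obtain ⟨b1, b2, h1, h2, h3, h4, h5⟩ := h
  by_cases hL : b1 = [] ∨ p = []
  · by_cases hR : b2 = [] ∨ q = []
    · exact Or.inl ⟨b1, b2, h1, h2, h3, h4, h5, hL, hR⟩
    · push Not at hR
      exact Or.inr (Or.inr ⟨hR.2, h5.resolve_left hR.1⟩)
  · push Not at hL
    exact Or.inr (Or.inl ⟨hL.2, h3.resolve_left hL.1⟩)

theorem Align.left_nil {b q X Y p' b' q' : List T} (h : Align [] b q X Y p' b' q') : p' = [] := by
  obtain ⟨b1, b2, h1, h2, h3, h4, h5⟩ := h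
  rcases h3 with h3 | h3
  · rw [h3] at h2
    simp only [List.append_nil, List.append_eq_nil_iff] at h2
    exact h2.2
  · exact h3

theorem Align.right_nil {b p X Y p' b' q' : List T} (h : Align p b [] X Y p' b' q') : q' = [] := by
  obtain ⟨b1, b2, h1, h2, h3, h4, h5⟩ := h
  rcases h5 with h5 | h5
  · rw [h5] at h4
    simp only [List.append_nil, List.append_eq_nil_iff] at h4
    exact h4.1
  · exact h5

/-- powers of a word -/
def rep (u : List T) (n : ℕ) : List T := (List.replicate n u).flatten

@[simp] theorem rep_zero (u : List T) : rep u 0 = [] := rfl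

theorem rep_succ (u : List T) (n : ℕ) : rep u (n + 1) = u ++ rep u n := by
  simp [rep, List.replicate_succ]

theorem rep_succ' (u : List T) (n : ℕ) : rep u (n + 1) = rep u n ++ u := by
  simp [rep, List.replicate_succ']

@[simp] theorem rep_nil (n : ℕ) : rep ([] : List T) n = [] := by simp [rep]

theorem Ctx.pow {g : ContextFreeGrammar T} {C : g.NT} {X Y : List T} (h : Ctx g C C X Y) :
    ∀ n, Ctx g C C (rep X n) (rep Y n) := by
  intro n
  induction n with
  | zero => exact Ctx.refl g C
  | succ n ih =>
    rw [rep_succ', rep_succ]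
    exact ih.trans h

/-- The three possible positions of a pump relative to a marked zone `B` of `P ++ B ++ Q`. -/
def ZoneConcl (L : Language T) (P B Q : List T) : Prop :=
  (∃ B1 u B2 w B3, B = B1 ++ u ++ B2 ++ w ++ B3 ∧ u ++ w ≠ [] ∧
    ∀ n, P ++ B1 ++ rep u n ++ B2 ++ rep w n ++ B3 ++ Q ∈ L) ∨
  (∃ P1 u P2 B1 w B2, P = P1 ++ u ++ P2 ∧ B = B1 ++ w ++ B2 ∧ w ≠ [] ∧
    ∀ n, P1 ++ rep u n ++ P2 ++ B1 ++ rep w n ++ B2 ++ Q ∈ L) ∨
  (∃ B1 w B2 Q1 u Q2, B = B1 ++ w ++ B2 ∧ Q = Q1 ++ u ++ Q2 ∧ w ≠ [] ∧
    ∀ n, P ++ B1 ++ rep w n ++ B2 ++ Q1 ++ rep u n ++ Q2 ∈ L)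

theorem good_concl (g : ContextFreeGrammar T) {P B Q : List T} {t u : Nd g} {x y X Y : List T}
    (h1 : Ctx g g.initial t.A x y) (h2 : Align P B Q x y t.p t.b t.q)
    (h3 : Ctx g t.A u.A X Y) (hA : t.A = u.A) (h4 : Good t.p t.b t.q X Y u.p u.b u.q)
    (h5 : u.b.length < t.b.length) : ZoneConcl g.language P B Q := by
  obtain ⟨A, p, b, q, hd⟩ := t
  obtain ⟨A', p', b', q', hd'⟩ := u
  simp only at h1 h2 h3 h4 h5 hA
  subst hA
  have hpump : ∀ n, x ++ (rep X n ++ (p' ++ b' ++ q') ++ rep Y n) ++ y ∈ g.language :=
    fun n => mem_of_der g (h1 _ ((h3.pow n) _ hd'))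
  obtain ⟨a1, a2, k1, k2, k3, k4, k5⟩ := h2
  obtain ⟨b1, b2, l1, l2, l3, l4, l5, l6, l7⟩ := h4
  by_cases hb1 : b1 = []
  · -- the left pump is in `P` (or empty)
    subst hb1
    have hb2 : b2 ≠ [] := by
      rintro rfl
      have := congrArg List.length l1
      simp only [List.length_append, List.length_nil] at this
      omega
    have hq : q = [] := l7.resolve_left hb2
    have hq' : q' = [] := l5.resolve_left hb2
    subst hq hq'
    simp only [List.append_nil, List.nil_append] at l1 l2 l4 k4 hpump
    subst l1 l2 l4 k4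
    by_cases ha1 : a1 = []
    · subst ha1
      simp only [List.append_nil, List.nil_append] at k1 k2
      right; left
      refine ⟨x, X, p', b', Y, a2, ?_, ?_, hb2, ?_⟩
      · rw [← k2]; simp
      · rw [k1]
      · intro n
        have := hpump n
        simpa [List.append_assoc] using this
    · have hp : X ++ p' = [] := k3.resolve_left ha1
      rw [List.append_eq_nil_iff] at hp
      obtain ⟨rfl, rfl⟩ := hp
      simp only [List.append_nil] at k2
      left
      refine ⟨a1, [], b', Y, a2, ?_, by simpa using hb2, ?_⟩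
      · rw [k1]; simp
      · intro n
        have := hpump n
        rw [k2] at this
        simpa [List.append_assoc] using this
  · have hp : p = [] := l6.resolve_left hb1
    have hp' : p' = [] := l3.resolve_left hb1
    subst hp hp'
    simp only [List.append_nil, List.nil_append] at l2 k2 hpump
    subst l2 k2
    by_cases hb2 : b2 = []
    · subst hb2
      simp only [List.append_nil, List.nil_append] at l1 l4
      subst l1 l4
      by_cases ha2 : a2 = []
      · subst ha2
        simp only [List.append_nil, List.nil_append] at k1 k4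
        right; right
        refine ⟨a1, X, b', q', Y, y, ?_, ?_, hb1, ?_⟩
        · rw [k1]; simp
        · rw [← k4]
        · intro n
          have := hpump n
          simpa [List.append_assoc] using this
      · have hq : q' ++ Y = [] := k5.resolve_left ha2
        rw [List.append_eq_nil_iff] at hq
        obtain ⟨rfl, rfl⟩ := hq
        simp only [List.nil_append] at k4
        left
        refine ⟨a1, X, b', [], a2, ?_, by simpa using hb1, ?_⟩
        · rw [k1]; simp
        · intro n
          have := hpump n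
          rw [k4] at this
          simpa [List.append_assoc] using this
    · have hq : q = [] := l7.resolve_left hb2
      have hq' : q' = [] := l5.resolve_left hb2
      subst hq hq'
      simp only [List.append_nil, List.nil_append] at l4 k4 hpump
      subst l4 k4 l1
      left
      refine ⟨a1, X, b', Y, a2, ?_, ?_, ?_⟩
      · rw [k1]; simp
      · intro h
        rw [List.append_eq_nil_iff] at h
        exact hb1 h.1
      · intro n
        have := hpump n
        simpa [List.append_assoc] using this

/-- The zone pumping lemma (in the style of Ogden and Bader-Moura): if `P ++ B ++ Q` is in a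
context-free language and `B` is long, then one can pump with at least one nonempty pump inside
`B`, no pump straddling a border of `B`. -/
theorem zone {L : Language T} (hL : L.IsContextFree) :
    ∃ K : ℕ, ∀ P B Q : List T, P ++ B ++ Q ∈ L → K ≤ B.length → ZoneConcl L P B Q := by
  obtain ⟨g, rfl⟩ := hL
  set W := width g ^ (g.rules.card + 1) with hW
  have hW1 : 1 ≤ W := Nat.pow_pos (width_pos g)
  refine ⟨W * (W * (W * 2)), ?_⟩
  intro P B Q hmem hlen
  have hroot := der_of_mem g hmem
  have w1 : 2 ≤ W * 2 := Nat.le_mul_of_pos_left 2 hW1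
  have w2 : 2 ≤ W * (W * 2) := w1.trans (Nat.le_mul_of_pos_left _ hW1)
  obtain ⟨t1, u1, ⟨x1, y1, c1, a1⟩, ⟨X1, Y1, C1, A1, L1⟩, e1, m1⟩ :=
    block g (W * (W * 2)) w2 ⟨g.initial, P, B, Q, hroot⟩ hlen
  obtain ⟨t2, u2, ⟨x2, y2, c2, a2⟩, ⟨X2, Y2, C2, A2, L2⟩, e2, m2⟩ :=
    block g (W * 2) w1 u1 m1
  obtain ⟨t3, u3, ⟨x3, y3, c3, a3⟩, ⟨X3, Y3, C3, A3, L3⟩, e3, _⟩ :=
    block g 2 le_rfl u2 m2
  simp only at c1 a1
  have c2' := (c1.trans C1).trans c2
  have a2' := (a1.trans A1).trans a2
  have c3' := (c2'.trans C2).trans c3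
  have a3' := (a2'.trans A2).trans a3
  rcases A1.good with g1 | g1
  · exact good_concl g c1 a1 C1 e1 g1 L1
  rcases A2.good with g2 | g2
  · exact good_concl g c2' a2' C2 e2 g2 L2
  rcases A3.good with g3 | g3
  · exact good_concl g c3' a3' C3 e3 g3 L3
  exfalso
  have key1 : ∀ {s t : Nd g} {x y : List T}, Align s.p s.b s.q x y t.p t.b t.q → s.p = [] →
      t.p = [] := by
    intro s t x y h hs; rw [hs] at h; exact h.left_nil
  have key2 : ∀ {s t : Nd g} {x y : List T}, Align s.p s.b s.q x y t.p t.b t.q → s.q = [] →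
      t.q = [] := by
    intro s t x y h hs; rw [hs] at h; exact h.right_nil
  rcases g1 with ⟨_, g1⟩ | ⟨_, g1⟩
  · have h2 : t2.p = [] := key1 a2 g1
    have h2' : u2.p = [] := key1 A2 h2
    have h3 : t3.p = [] := key1 a3 h2'
    have hq2 : u2.q = [] := by
      rcases g2 with ⟨h, _⟩ | ⟨_, h⟩
      · exact absurd h2 h
      · exact h
    have hq3 : t3.q = [] := key2 a3 hq2
    rcases g3 with ⟨h, _⟩ | ⟨h, _⟩
    · exact h h3
    · exact h hq3
  · have h2 : t2.q = [] := key2 a2 g1
    have h2' : u2.q = [] := key2 A2 h2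
    have h3 : t3.q = [] := key2 a3 h2'
    have hp2 : u2.p = [] := by
      rcases g2 with ⟨_, h⟩ | ⟨h, _⟩
      · exact h
      · exact absurd h2 h
    have hp3 : t3.p = [] := key1 a3 hp2
    rcases g3 with ⟨h, _⟩ | ⟨h, _⟩
    · exact h hp3
    · exact h h3

end Pool.Agent.H.MP_21aec1_al
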